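import Pool.Agent.Helper48.RD.Defs

/-!
# Hall's theorem for surrounding rainbow triples (no jokers)
-/

namespace RD

namespace HP

/-- `(q - p) mod 2N ≥ N`, for positions in `[0, 2N)`. -/
def H (N p q : ℤ) : Prop := (p ≤ q ∧ N ≤ q - p) ∨ (q < p ∧ p - q ≤ N)

/-- From every point of the triple some point of the triple is at least half a turn ahead. -/
def GoodF (N : ℤ) (f : Fin 3 → ℤ) : Prop := ∀ c, ∃ d, H N (f c) (f d)

lemma good_of_H (N x y z : ℤ) (hN : 0 < N) (hx : 0 ≤ x ∧ x < 2 * N) (hy : 0 ≤ y ∧ y < 2 * N)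
    (hz : 0 ≤ z ∧ z < 2 * N) (h0 : H N x x ∨ H N x y ∨ H N x z)
    (h1 : H N y x ∨ H N y y ∨ H N y z) (h2 : H N z x ∨ H N z y ∨ H N z z) : Good N x y z := by
  unfold H at h0 h1 h2
  unfold Good Surr
  rcases le_total x y with a | a <;> rcases le_total y z with b | b <;>
    rcases le_total x z with c | c
  · left; omega
  · left; omega
  · right; left; omega
  · right; right; right; right; left; omega
  · right; right; left; omega
  · right; right; right; left; omega
  · right; right; right; right; right; omega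
  · right; right; right; right; right; omega

lemma good_of_goodF (N : ℤ) (hN : 0 < N) (f : Fin 3 → ℤ) (hf : ∀ c, 0 ≤ f c ∧ f c < 2 * N)
    (h : GoodF N f) : Good N (f 0) (f 1) (f 2) := by
  have key : ∀ c : Fin 3, H N (f c) (f 0) ∨ H N (f c) (f 1) ∨ H N (f c) (f 2) := by
    intro c
    obtain ⟨d, hd⟩ := h c
    fin_cases d
    · exact Or.inl hd
    · exact Or.inr (Or.inl hd)
    · exact Or.inr (Or.inr hd)
  exact good_of_H N _ _ _ hN (hf 0) (hf 1) (hf 2) (key 0) (key 1) (key 2)

/-- rotation by `t ∈ [0, 2N)` -/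
def rot (N t p : ℤ) : ℤ := if p + t < 2 * N then p + t else p + t - 2 * N

/-- reflection `p ↦ k - p`, `k ∈ [0, 2N)` -/
def refl (N k p : ℤ) : ℤ := if p ≤ k then k - p else k - p + 2 * N

lemma rot_range (N t p : ℤ) (ht : 0 ≤ t ∧ t < 2 * N) (hp : 0 ≤ p ∧ p < 2 * N) :
    0 ≤ rot N t p ∧ rot N t p < 2 * N := by
  unfold rot; split_ifs <;> omega

lemma refl_range (N t p : ℤ) (ht : 0 ≤ t ∧ t < 2 * N) (hp : 0 ≤ p ∧ p < 2 * N) :
    0 ≤ refl N t p ∧ refl N t p < 2 * N := by
  unfold refl; split_ifs <;> omega

lemma refl_refl (N t p : ℤ) (hp : 0 ≤ p ∧ p < 2 * N) :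
    refl N t (refl N t p) = p := by
  unfold refl; split_ifs <;> omega

lemma H_rot (N t p q : ℤ) (ht : 0 ≤ t ∧ t < 2 * N) (hp : 0 ≤ p ∧ p < 2 * N)
    (hq : 0 ≤ q ∧ q < 2 * N) : H N (rot N t p) (rot N t q) ↔ H N p q := by
  unfold H rot; split_ifs <;> omega

variable {E : Type*}

/-- transport of the Hall condition -/
lemma hall_map (N : ℤ) (col : E → Fin 3) (x x' : E → ℤ) (S : Finset E) (r : ℕ)
    (h : ∀ l s, Arc N l s → ∃ l' s', Arc N l' s' ∧ ∀ e ∈ S,
      (Mem N l s (x' e) ↔ Mem N l' s' (x e)) ∧
      (Mem N l s (anti N (x' e)) ↔ Mem N l' s' (anti N (x e))))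
    (hH : Hall N col (fun e => some (x e)) S r) : Hall N col (fun e => some (x' e)) S r := by
  intro c l s ha
  obtain ⟨l', s', ha', he⟩ := h l s ha
  have : sig N col (fun e => some (x' e)) S c l s = sig N col (fun e => some (x e)) S c l' s' := by
    unfold sig
    refine Finset.sum_congr rfl fun e hes => ?_
    simp only [ctr, (he e hes).1, (he e hes).2]
  rw [this]
  exact hH c l' s' ha'

lemma hall_rot (N : ℤ) (col : E → Fin 3) (x : E → ℤ) (S : Finset E) (r : ℕ)
    (hx : ∀ e, 0 ≤ x e ∧ x e < 2 * N) (t : ℤ) (ht : 0 ≤ t ∧ t < 2 * N)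
    (hH : Hall N col (fun e => some (x e)) S r) :
    Hall N col (fun e => some (rot N t (x e))) S r := by
  refine hall_map N col x (fun e => rot N t (x e)) S r ?_ hH
  intro l s ha
  unfold Arc at ha
  by_cases hl : t ≤ l
  · refine ⟨l - t, s - t, by unfold Arc; omega, fun e _ => ?_⟩
    have := hx e
    constructor
    · unfold Mem rot; split_ifs <;> omega
    · unfold Mem rot anti; split_ifs <;> omega
  · refine ⟨l - t + 2 * N, s - t + 2 * N, by unfold Arc; omega, fun e _ => ?_⟩
    have := hx e
    constructor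
    · unfold Mem rot; split_ifs <;> omega
    · unfold Mem rot anti; split_ifs <;> omega

lemma hall_refl (N : ℤ) (col : E → Fin 3) (x : E → ℤ) (S : Finset E) (r : ℕ)
    (hx : ∀ e, 0 ≤ x e ∧ x e < 2 * N) (k : ℤ) (hk : 0 ≤ k ∧ k < 2 * N)
    (hH : Hall N col (fun e => some (x e)) S r) :
    Hall N col (fun e => some (refl N k (x e))) S r := by
  refine hall_map N col x (fun e => refl N k (x e)) S r ?_ hH
  intro l s ha
  unfold Arc at ha
  -- the reflected arc is `[k - s, k - l]`
  have hcase : (0 ≤ k - s ∧ k - s < 2 * N) ∨ (0 ≤ k - s + 2 * N ∧ k - s + 2 * N < 2 * N) ∨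
      (0 ≤ k - s + 4 * N ∧ k - s + 4 * N < 2 * N) := by omega
  rcases hcase with h | h | h
  · refine ⟨k - s, k - l, by unfold Arc; omega, fun e _ => ?_⟩
    have := hx e
    constructor
    · unfold Mem refl; split_ifs <;> omega
    · unfold Mem refl anti; split_ifs <;> omega
  · refine ⟨k - s + 2 * N, k - l + 2 * N, by unfold Arc; omega, fun e _ => ?_⟩
    have := hx e
    constructor
    · unfold Mem refl; split_ifs <;> omega
    · unfold Mem refl anti; split_ifs <;> omega
  · refine ⟨k - s + 4 * N, k - l + 4 * N, by unfold Arc; omega, fun e _ => ?_⟩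
    have := hx e
    constructor
    · unfold Mem refl; split_ifs <;> omega
    · unfold Mem refl anti; split_ifs <;> omega

/-- `dL` : distance to `0` going upwards. -/
def dL (N p : ℤ) : ℤ := if p = 0 then 0 else 2 * N - p

lemma sum_col [DecidableEq E] (col : E → Fin 3) (S : Finset E) (r : ℕ) (hb : Bal col S r)
    (c : Fin 3) : ∑ e ∈ S, (if col e = c then (1 : ℤ) else 0) = r := by
  rw [Finset.sum_boole, hb c]

lemma sum_single [DecidableEq E] (S : Finset E) (a : E) (ha : a ∈ S) :
    ∑ e ∈ S, (if e = a then (1 : ℤ) else 0) = 1 := by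
  rw [Finset.sum_ite_eq' S a]
  simp [ha]

/-- Removing a good adjacent triple from a slack configuration. -/
lemma removal [DecidableEq E] (N : ℤ) (col : E → Fin 3) (x : E → ℤ)
    (S : Finset E) (n : ℕ) (hx : ∀ e, 0 ≤ x e ∧ x e < 2 * N) (hb : Bal col S (n + 1))
    (hH : Hall N col (fun e => some (x e)) S n) (a u v : E) (ha : a ∈ S) (hu : u ∈ S)
    (hv : v ∈ S) (hca : col a = 0) (hcu : col u ≠ 0) (hcv : col v ≠ 0) (huv : col u ≠ col v)
    (hxa : x a = N) (hmu : ∀ e ∈ S, col e ≠ 0 → x u ≤ x e)
    (hmv : ∀ e ∈ S, col e = col v → dL N (x v) ≤ dL N (x e)) (hg : x u + dL N (x v) ≤ N) :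
    Hall N col (fun e => some (x e)) (((S.erase a).erase u).erase v) n := by
  have hua : u ≠ a := fun h => hcu (h ▸ hca)
  have hva : v ≠ a := fun h => hcv (h ▸ hca)
  have hvu : v ≠ u := fun h => huv (h ▸ rfl)
  have hu' : u ∈ S.erase a := Finset.mem_erase.2 ⟨hua, hu⟩
  have hv' : v ∈ (S.erase a).erase u := Finset.mem_erase.2 ⟨hvu, Finset.mem_erase.2 ⟨hva, hv⟩⟩
  intro c l s harc
  have hsig := hH c l s harc
  have e1 : sig N col (fun e => some (x e)) S c l s =
      ctr N c l s (col a) (some (x a)) + (ctr N c l s (col u) (some (x u)) +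
      (ctr N c l s (col v) (some (x v)) +
        sig N col (fun e => some (x e)) (((S.erase a).erase u).erase v) c l s)) := by
    unfold sig
    rw [Finset.add_sum_erase _ (fun e => ctr N c l s (col e) (some (x e))) hv',
      Finset.add_sum_erase _ (fun e => ctr N c l s (col e) (some (x e))) hu',
      Finset.add_sum_erase _ (fun e => ctr N c l s (col e) (some (x e))) ha]
  by_cases hτ : 0 ≤ ctr N c l s (col a) (some (x a)) + ctr N c l s (col u) (some (x u)) +
      ctr N c l s (col v) (some (x v))
  · omega
  have hτ' : ctr N c l s (col a) (some (x a)) + ctr N c l s (col u) (some (x u)) +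
      ctr N c l s (col v) (some (x v)) = -1 := by
    have h1 : -1 ≤ ctr N c l s (col a) (some (x a)) + ctr N c l s (col u) (some (x u)) +
      ctr N c l s (col v) (some (x v)) := by
      simp only [ctr]
      by_cases hc0 : col a = c <;> by_cases hc1 : col u = c <;> by_cases hc2 : col v = c
      · exact absurd (hc0.trans hc1.symm) (fun h => hcu (h ▸ hca))
      · exact absurd (hc0.trans hc1.symm) (fun h => hcu (h ▸ hca))
      · exact absurd (hc0.trans hc2.symm) (fun h => hcv (h ▸ hca))
      · simp only [hc0, hc1, hc2, if_true, if_false]; split_ifs <;> omega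
      · exact absurd (hc1.trans hc2.symm) huv
      · simp only [hc0, hc1, hc2, if_true, if_false]; split_ifs <;> omega
      · simp only [hc0, hc1, hc2, if_true, if_false]; split_ifs <;> omega
      · simp only [hc0, hc1, hc2, if_false]; split_ifs <;> omega
    omega
  suffices h : sig N col (fun e => some (x e)) S c l s ≤ (n : ℤ) - 1 by omega
  have hru := hx u
  have hrv := hx v
  have harc' := harc
  unfold Arc at harc'
  have hc3 : c = 0 ∨ c = col u ∨ c = col v := by
    have : ∀ c cu cv : Fin 3, cu ≠ 0 → cv ≠ 0 → cu ≠ cv → c = 0 ∨ c = cu ∨ c = cv := by decide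
    exact this c _ _ hcu hcv huv
  have hcol3 : ∀ e, col e = 0 ∨ col e = col u ∨ col e = col v := by
    intro e
    have : ∀ c cu cv : Fin 3, cu ≠ 0 → cv ≠ 0 → cu ≠ cv → c = 0 ∨ c = cu ∨ c = cv := by decide
    exact this (col e) _ _ hcu hcv huv
  rcases hc3 with hc | hc | hc
  · -- c = 0
    have h0u : ¬ (col u = 0) := hcu
    have h0v : ¬ (col v = 0) := hcv
    rw [hc] at hτ' ⊢
    simp only [ctr, hca, h0u, h0v, if_true, if_false, hxa] at hτ'
    have hm : Mem N l s (anti N N) ∧ ¬ Mem N l s (x u) ∧ ¬ Mem N l s (x v) := by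
      split_ifs at hτ' <;> first | omega | tauto
    obtain ⟨hm1, hm2, hm3⟩ := hm
    have hpt : ∀ e ∈ S, ctr N 0 l s (col e) (some (x e)) ≤
        (if col e = col u then 1 else 0) - (if e = u then 1 else 0) - (if e = a then 1 else 0) := by
      intro e he
      have hre := hx e
      by_cases hea : e = a
      · subst hea
        have : ¬ e = u := fun h => hua h.symm
        have h' : ¬ col e = col u := fun h => h0u (h ▸ hca)
        simp only [ctr, hca, if_true, hxa, hm1, this, if_false]
        have h'' : ¬ (0 = col u) := fun h => h0u h.symm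
        simp [h'']
      · by_cases heu : e = u
        · subst heu
          simp only [ctr, h0u, if_false, hm2, hea, if_true]
          omega
        · rcases hcol3 e with h | h | h
          · have h'' : ¬ (0 = col u) := fun h => h0u h.symm
            simp only [ctr, h, if_true, hea, heu, if_false, h'']
            split_ifs <;> omega
          · simp only [ctr, h, h0u, if_true, if_false, hea, heu]
            split_ifs <;> omega
          · have h1 : ¬ Mem N l s (x e) := by
              have hmue := hmu e he (by rw [h]; exact hcv)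
              have hmve := hmv e he h
              unfold dL at hmve hg
              unfold Mem anti at *
              split_ifs at hmve hg hm1 <;> omega
            have h2 : ¬ col v = col u := fun h => huv h.symm
            simp only [ctr, h, h0v, if_false, h1, h2, hea, heu]
            omega
    have hsum := Finset.sum_le_sum hpt
    rw [Finset.sum_sub_distrib, Finset.sum_sub_distrib, sum_col col S (n + 1) hb (col u),
      sum_single S u hu, sum_single S a ha] at hsum
    simp only [sig]
    push_cast at hsum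
    omega
  · -- c = col u
    rw [hc] at hτ' ⊢
    have h1 : ¬ col a = col u := fun h => hcu (h ▸ hca)
    have h2 : ¬ col v = col u := fun h => huv h.symm
    simp only [ctr, h1, h2, if_true, if_false, hxa] at hτ'
    have hm : Mem N l s (anti N (x u)) ∧ ¬ Mem N l s N ∧ ¬ Mem N l s (x v) := by
      split_ifs at hτ' <;> first | omega | tauto
    obtain ⟨hm1, hm2, hm3⟩ := hm
    have hloc : N < l ∧ x u < N ∧ l ≤ x u + N ∧ x u + N ≤ s ∧ s < 2 * N := by
      unfold dL at hg
      unfold Mem anti at *
      split_ifs at hg hm1 <;> omega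
    have harc2 : Arc N N s := by unfold Arc; omega
    have hsig2 := hH (col u) N s harc2
    have hpt : ∀ e ∈ S, ctr N (col u) l s (col e) (some (x e)) + (if e = a then 1 else 0) ≤
        ctr N (col u) N s (col e) (some (x e)) := by
      intro e he
      have hre := hx e
      by_cases hea : e = a
      · subst hea
        have hn1 : Mem N N s N := by unfold Mem; omega
        simp only [ctr, h1, if_false, hxa, hm2, hn1, if_true]
        omega
      · by_cases hce : col e = col u
        · have hmue := hmu e he (by rw [hce]; exact hcu)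
          simp only [ctr, hce, if_true, hea, if_false]
          have : Mem N N s (anti N (x e)) → Mem N l s (anti N (x e)) := by
            unfold Mem anti
            split_ifs <;> omega
          split_ifs <;> first | omega | tauto
        · simp only [ctr, hce, if_false, hea]
          have : Mem N l s (x e) → Mem N N s (x e) := by
            unfold Mem
            omega
          split_ifs <;> first | omega | tauto
    have hsum := Finset.sum_le_sum hpt
    rw [Finset.sum_add_distrib, sum_single S a ha] at hsum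
    simp only [sig] at hsig2 ⊢
    omega
  · -- c = col v
    rw [hc] at hτ' ⊢
    have h1 : ¬ col a = col v := fun h => hcv (h ▸ hca)
    have h2 : ¬ col u = col v := huv
    simp only [ctr, h1, h2, if_true, if_false, hxa] at hτ'
    have hm : Mem N l s (anti N (x v)) ∧ ¬ Mem N l s N ∧ ¬ Mem N l s (x u) := by
      split_ifs at hτ' <;> first | omega | tauto
    obtain ⟨hm1, hm2, hm3⟩ := hm
    have hloc : x u < l ∧ l ≤ N - dL N (x v) ∧ N - dL N (x v) ≤ s ∧ s < N ∧ 0 ≤ dL N (x v) := by
      unfold dL at *
      unfold Mem anti at *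
      split_ifs at * <;> omega
    have harc2 : Arc N l N := by unfold Arc; omega
    have hsig2 := hH (col v) l N harc2
    have hpt : ∀ e ∈ S, ctr N (col v) l s (col e) (some (x e)) + (if e = a then 1 else 0) ≤
        ctr N (col v) l N (col e) (some (x e)) := by
      intro e he
      have hre := hx e
      by_cases hea : e = a
      · subst hea
        have hn1 : Mem N l N N := by unfold Mem; omega
        simp only [ctr, h1, if_false, hxa, hm2, hn1, if_true]
        omega
      · by_cases hce : col e = col v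
        · have hmve := hmv e he hce
          simp only [ctr, hce, if_true, hea, if_false]
          have : Mem N l N (anti N (x e)) → Mem N l s (anti N (x e)) := by
            unfold dL at *
            unfold Mem anti
            split_ifs at * <;> omega
          split_ifs <;> first | omega | tauto
        · simp only [ctr, hce, if_false, hea]
          have : Mem N l s (x e) → Mem N l N (x e) := by
            unfold Mem
            omega
          split_ifs <;> first | omega | tauto
    have hsum := Finset.sum_le_sum hpt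
    rw [Finset.sum_add_distrib, sum_single S a ha] at hsum
    simp only [sig] at hsig2 ⊢
    omega

/-- A perfect matching into triples satisfying `GoodF`. -/
def PM (N : ℤ) (col : E → Fin 3) (x : E → ℤ) (S : Finset E) (r : ℕ) : Prop :=
  ∃ T : Fin r → Fin 3 → E, (∀ i c, T i c ∈ S) ∧ (∀ i c, col (T i c) = c) ∧
    (∀ c, Function.Injective fun i => T i c) ∧ ∀ i, GoodF N (fun c => x (T i c))

lemma card_filter_erase [DecidableEq E] (col : E → Fin 3) (S : Finset E) (e : E) (he : e ∈ S)
    (c : Fin 3) : (((S.erase e).filter (fun y => col y = c)).card : ℤ) +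
      (if col e = c then 1 else 0) = ((S.filter (fun y => col y = c)).card : ℤ) := by
  have h := Finset.add_sum_erase S (fun y => if col y = c then (1 : ℤ) else 0) he
  rw [Finset.sum_boole, Finset.sum_boole] at h
  rw [← h]
  ring

lemma bal_erase [DecidableEq E] (col : E → Fin 3) (S : Finset E) (n : ℕ) (hb : Bal col S (n + 1))
    (a u v : E) (ha : a ∈ S) (hu : u ∈ S) (hv : v ∈ S) (hau : col a ≠ col u)
    (hav : col a ≠ col v) (huv : col u ≠ col v) :
    Bal col (((S.erase a).erase u).erase v) n := by
  have hua : u ≠ a := fun h => hau (h ▸ rfl)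
  have hva : v ≠ a := fun h => hav (h ▸ rfl)
  have hvu : v ≠ u := fun h => huv (h ▸ rfl)
  have hu' : u ∈ S.erase a := Finset.mem_erase.2 ⟨hua, hu⟩
  have hv' : v ∈ (S.erase a).erase u := Finset.mem_erase.2 ⟨hvu, Finset.mem_erase.2 ⟨hva, hv⟩⟩
  intro c
  have h1 := card_filter_erase col S a ha c
  have h2 := card_filter_erase col _ u hu' c
  have h3 := card_filter_erase col _ v hv' c
  rw [hb c] at h1
  have hc : (if col a = c then (1 : ℤ) else 0) + (if col u = c then 1 else 0) +
      (if col v = c then 1 else 0) = 1 := by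
    have : ∀ c ca cu cv : Fin 3, ca ≠ cu → ca ≠ cv → cu ≠ cv →
        (if ca = c then (1 : ℤ) else 0) + (if cu = c then 1 else 0) +
          (if cv = c then 1 else 0) = 1 := by decide
    exact this c _ _ _ hau hav huv
  push_cast at h1
  have : ((Finset.filter (fun e => col e = c) (((S.erase a).erase u).erase v)).card : ℤ) = n := by
    omega
  exact_mod_cast this

/-- extend a matching by one triple -/
lemma pm_cons [DecidableEq E] (N : ℤ) (col : E → Fin 3) (x : E → ℤ) (S : Finset E) (n : ℕ)
    (a u v : E) (ha : a ∈ S) (hu : u ∈ S) (hv : v ∈ S) (hau : col a ≠ col u)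
    (hav : col a ≠ col v) (huv : col u ≠ col v)
    (h1 : H N (x a) (x u) ∨ H N (x a) (x v)) (h2 : H N (x u) (x a) ∨ H N (x u) (x v))
    (h3 : H N (x v) (x a) ∨ H N (x v) (x u))
    (hpm : PM N col x (((S.erase a).erase u).erase v) n) : PM N col x S (n + 1) := by
  obtain ⟨T, hT1, hT2, hT3, hT4⟩ := hpm
  set T₀ : Fin 3 → E := fun c => if col a = c then a else if col u = c then u else v with hT₀
  have hta : T₀ (col a) = a := by rw [hT₀]; simp
  have htu : T₀ (col u) = u := by rw [hT₀]; simp [hau]
  have htv : T₀ (col v) = v := by rw [hT₀]; simp [hav, huv]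
  have hc3 : ∀ c, c = col a ∨ c = col u ∨ c = col v := by
    have : ∀ c ca cu cv : Fin 3, ca ≠ cu → ca ≠ cv → cu ≠ cv → c = ca ∨ c = cu ∨ c = cv := by
      decide
    exact fun c => this c _ _ _ hau hav huv
  have hcol : ∀ c, col (T₀ c) = c := by
    intro c
    rcases hc3 c with h | h | h <;> rw [h]
    · rw [hta]
    · rw [htu]
    · rw [htv]
  have hmemT : ∀ i c, T i c ≠ a ∧ T i c ≠ u ∧ T i c ≠ v ∧ T i c ∈ S := by
    intro i c
    have := hT1 i c
    simp only [Finset.mem_erase] at this
    exact ⟨this.2.2.1, this.2.1, this.1, this.2.2.2⟩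
  have hne : ∀ i c, T i c ≠ T₀ c := by
    intro i c
    rcases hc3 c with h | h | h <;> rw [h]
    · rw [hta]; exact (hmemT i _).1
    · rw [htu]; exact (hmemT i _).2.1
    · rw [htv]; exact (hmemT i _).2.2.1
  refine ⟨Fin.cons T₀ T, ?_, ?_, ?_, ?_⟩
  · intro i c
    refine Fin.cases ?_ (fun j => ?_) i
    · simp only [Fin.cons_zero]
      rcases hc3 c with h | h | h <;> rw [h]
      · rw [hta]; exact ha
      · rw [htu]; exact hu
      · rw [htv]; exact hv
    · simp only [Fin.cons_succ]
      exact (hmemT j c).2.2.2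
  · intro i c
    refine Fin.cases ?_ (fun j => ?_) i
    · simp only [Fin.cons_zero]; exact hcol c
    · simp only [Fin.cons_succ]; exact hT2 j c
  · intro c i j hij
    revert hij
    refine Fin.cases ?_ (fun i' => ?_) i <;> refine Fin.cases ?_ (fun j' => ?_) j
    · intro _; rfl
    · intro hij
      simp only [Fin.cons_zero, Fin.cons_succ] at hij
      exact absurd hij.symm (hne j' c)
    · intro hij
      simp only [Fin.cons_zero, Fin.cons_succ] at hij
      exact absurd hij (hne i' c)
    · intro hij
      simp only [Fin.cons_succ] at hij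
      rw [hT3 c hij]
  · intro i
    refine Fin.cases ?_ (fun j => ?_) i
    · simp only [Fin.cons_zero]
      intro c
      rcases hc3 c with h | h | h <;> rw [h]
      · simp only [hta]
        rcases h1 with h1 | h1
        · exact ⟨col u, by simp only [htu]; exact h1⟩
        · exact ⟨col v, by simp only [htv]; exact h1⟩
      · simp only [htu]
        rcases h2 with h2 | h2
        · exact ⟨col a, by simp only [hta]; exact h2⟩
        · exact ⟨col v, by simp only [htv]; exact h2⟩
      · simp only [htv]
        rcases h3 with h3 | h3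
        · exact ⟨col a, by simp only [hta]; exact h3⟩
        · exact ⟨col u, by simp only [htu]; exact h3⟩
    · simp only [Fin.cons_succ]
      exact hT4 j

lemma pm_rot (N : ℤ) (col : E → Fin 3) (x : E → ℤ) (S : Finset E) (r : ℕ)
    (hx : ∀ e, 0 ≤ x e ∧ x e < 2 * N) (t : ℤ) (ht : 0 ≤ t ∧ t < 2 * N)
    (h : PM N col (fun e => rot N t (x e)) S r) : PM N col x S r := by
  obtain ⟨T, hT1, hT2, hT3, hT4⟩ := h
  refine ⟨T, hT1, hT2, hT3, fun i c => ?_⟩
  obtain ⟨d, hd⟩ := hT4 i c
  exact ⟨d, (H_rot N t _ _ ht (hx _) (hx _)).1 hd⟩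

lemma pm_perm (N : ℤ) (col : E → Fin 3) (x : E → ℤ) (S : Finset E) (r : ℕ)
    (π : Equiv.Perm (Fin 3)) (h : PM N (fun e => π (col e)) x S r) : PM N col x S r := by
  obtain ⟨T, hT1, hT2, hT3, hT4⟩ := h
  refine ⟨fun i c => T i (π c), fun i c => hT1 i _, fun i c => ?_, fun c => hT3 (π c), ?_⟩
  · exact π.injective (hT2 i (π c))
  · intro i c
    obtain ⟨d, hd⟩ := hT4 i (π c)
    exact ⟨π.symm d, by simpa using hd⟩

lemma hall_perm (N : ℤ) (col : E → Fin 3) (x : E → ℤ) (S : Finset E) (r : ℕ)
    (π : Equiv.Perm (Fin 3)) (h : Hall N col (fun e => some (x e)) S r) :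
    Hall N (fun e => π (col e)) (fun e => some (x e)) S r := by
  intro c l s ha
  have := h (π.symm c) l s ha
  have he : sig N (fun e => π (col e)) (fun e => some (x e)) S c l s =
      sig N col (fun e => some (x e)) S (π.symm c) l s := by
    unfold sig
    refine Finset.sum_congr rfl fun e _ => ?_
    have : (π (col e) = c) ↔ (col e = π.symm c) := by
      constructor
      · intro h; rw [← h]; simp
      · intro h; rw [h]; simp
    simp only [ctr, this]
  rw [he]
  exact this

lemma sig_perm (N : ℤ) (col : E → Fin 3) (x : E → ℤ) (S : Finset E)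
    (π : Equiv.Perm (Fin 3)) (c : Fin 3) (l s : ℤ) :
    sig N (fun e => π (col e)) (fun e => some (x e)) S (π c) l s =
      sig N col (fun e => some (x e)) S c l s := by
  unfold sig
  refine Finset.sum_congr rfl fun e _ => ?_
  have : (π (col e) = π c) ↔ (col e = c) := π.injective.eq_iff
  simp only [ctr, this]

lemma bal_perm [DecidableEq E] (col : E → Fin 3) (S : Finset E) (r : ℕ)
    (π : Equiv.Perm (Fin 3)) (h : Bal col S r) : Bal (fun e => π (col e)) S r := by
  intro c
  rw [← h (π.symm c)]
  congr 1
  refine Finset.filter_congr fun e _ => ?_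
  constructor
  · intro h; rw [← h]; simp
  · intro h; simp [h]

/-- the slack case, with the antipode of `a` at `0`. -/
lemma slack_norm [DecidableEq E] (N : ℤ) (hN : 0 < N) (col : E → Fin 3) (x : E → ℤ)
    (S : Finset E) (n : ℕ) (hx : ∀ e, 0 ≤ x e ∧ x e < 2 * N) (hb : Bal col S (n + 1))
    (hH : Hall N col (fun e => some (x e)) S n)
    (ih : ∀ S' : Finset E, Bal col S' n → Hall N col (fun e => some (x e)) S' n →
      PM N col x S' n)
    (a : E) (ha : a ∈ S) (hca : col a = 0) (hxa : x a = N) : PM N col x S (n + 1) := by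
  have hex : ∀ c, ∃ e ∈ S, col e = c := by
    intro c
    have : 0 < (S.filter (fun e => col e = c)).card := by rw [hb c]; omega
    obtain ⟨e, he⟩ := Finset.card_pos.1 this
    exact ⟨e, (Finset.mem_filter.1 he).1, (Finset.mem_filter.1 he).2⟩
  -- the nearest elements on both sides
  obtain ⟨X, hXm, hXmin⟩ := Finset.exists_min_image (S.filter (fun e => col e ≠ 0)) x
    (by obtain ⟨e, he, hc⟩ := hex 1
        exact ⟨e, Finset.mem_filter.2 ⟨he, by rw [hc]; decide⟩⟩)
  obtain ⟨Y, hYm, hYmin⟩ := Finset.exists_min_image (S.filter (fun e => col e ≠ 0))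
    (fun e => dL N (x e))
    (by obtain ⟨e, he, hc⟩ := hex 1
        exact ⟨e, Finset.mem_filter.2 ⟨he, by rw [hc]; decide⟩⟩)
  obtain ⟨hXS, hXc⟩ := Finset.mem_filter.1 hXm
  obtain ⟨hYS, hYc⟩ := Finset.mem_filter.1 hYm
  have hXmin' : ∀ e ∈ S, col e ≠ 0 → x X ≤ x e :=
    fun e he hc => hXmin e (Finset.mem_filter.2 ⟨he, hc⟩)
  have hYmin' : ∀ e ∈ S, col e ≠ 0 → dL N (x Y) ≤ dL N (x e) :=
    fun e he hc => hYmin e (Finset.mem_filter.2 ⟨he, hc⟩)
  -- conclusion from a good adjacent triple
  have fin1 : ∀ u v, u ∈ S → v ∈ S → col u ≠ 0 → col v ≠ 0 → col u ≠ col v →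
      (Hall N col (fun e => some (x e)) (((S.erase a).erase u).erase v) n) →
      x u + dL N (x v) ≤ N → PM N col x S (n + 1) := by
    intro u v hu hv hcu hcv huv hH' hg
    have h1 : col a ≠ col u := fun h => hcu (h ▸ hca)
    have h2 : col a ≠ col v := fun h => hcv (h ▸ hca)
    have hru := hx u
    have hrv := hx v
    refine pm_cons N col x S n a u v ha hu hv h1 h2 huv ?_ ?_ ?_
      (ih _ (bal_erase col S n hb a u v ha hu hv h1 h2 huv) hH')
    · rw [hxa]; unfold H dL at *; split_ifs at hg <;> omega
    · rw [hxa]; unfold H dL at *; split_ifs at hg <;> omega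
    · rw [hxa]; unfold H dL at *; split_ifs at hg <;> omega
  have fin2 : ∀ u v, u ∈ S → v ∈ S → col u ≠ 0 → col v ≠ 0 → col u ≠ col v →
      (∀ e ∈ S, col e ≠ 0 → x u ≤ x e) →
      (∀ e ∈ S, col e = col v → dL N (x v) ≤ dL N (x e)) →
      x u + dL N (x v) ≤ N → PM N col x S (n + 1) :=
    fun u v hu hv hcu hcv huv hmu hmv hg => fin1 u v hu hv hcu hcv huv
      (removal N col x S n hx hb hH a u v ha hu hv hca hcu hcv huv hxa hmu hmv hg) hg
  have hN2 : (0 : ℤ) ≤ 0 ∧ (0 : ℤ) < 2 * N := by omega
  have hdL : ∀ e, refl N 0 (x e) = dL N (x e) := by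
    intro e
    have := hx e
    unfold refl dL; split_ifs <;> omega
  have hdL2 : ∀ e, dL N (dL N (x e)) = x e := by
    intro e
    have := hx e
    unfold dL; split_ifs <;> omega
  have fin3 : ∀ u v, u ∈ S → v ∈ S → col u ≠ 0 → col v ≠ 0 → col u ≠ col v →
      (∀ e ∈ S, col e ≠ 0 → dL N (x v) ≤ dL N (x e)) →
      (∀ e ∈ S, col e = col u → x u ≤ x e) →
      x u + dL N (x v) ≤ N → PM N col x S (n + 1) := by
    intro u v hu hv hcu hcv huv hmv hmu hg
    refine fin1 u v hu hv hcu hcv huv ?_ hg
    have hr : ∀ e, 0 ≤ refl N 0 (x e) ∧ refl N 0 (x e) < 2 * N :=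
      fun e => refl_range N 0 (x e) hN2 (hx e)
    have hH1 := hall_refl N col x S n hx 0 hN2 hH
    have hH2 := removal N col (fun e => refl N 0 (x e)) S n hr hb hH1 a v u ha hv hu hca hcv hcu
      huv.symm (by simp only [hxa]; unfold refl; split_ifs <;> omega)
      (by simpa only [hdL] using hmv)
      (by simpa only [hdL, hdL2] using hmu)
      (by simp only [hdL, hdL2]; omega)
    have hH3 := hall_refl N col _ _ n hr 0 hN2 hH2
    have hxx : (fun e => some (refl N 0 (refl N 0 (x e)))) = fun e => some (x e) := by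
      funext e
      rw [refl_refl N 0 (x e) (hx e)]
    rw [hxx] at hH3
    rwa [Finset.erase_right_comm] at hH3
  by_cases hXY : col X = col Y
  · -- both nearest elements have the same colour
    obtain ⟨d, hd0, hdX⟩ : ∃ d : Fin 3, d ≠ 0 ∧ d ≠ col X := by
      have : ∀ c : Fin 3, ∃ d : Fin 3, d ≠ 0 ∧ d ≠ c := by decide
      exact this _
    have hcol3 : ∀ e, col e = 0 ∨ col e = col X ∨ col e = d := by
      intro e
      have : ∀ c cu cv : Fin 3, cu ≠ 0 → cv ≠ 0 → cv ≠ cu → c = 0 ∨ c = cu ∨ c = cv := by decide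
      exact this (col e) _ _ hXc hd0 hdX
    obtain ⟨P, hPm, hPmin⟩ := Finset.exists_min_image (S.filter (fun e => col e = d)) x
      (by obtain ⟨e, he, hc⟩ := hex d
          exact ⟨e, Finset.mem_filter.2 ⟨he, hc⟩⟩)
    obtain ⟨Q, hQm, hQmin⟩ := Finset.exists_min_image (S.filter (fun e => col e = d))
      (fun e => dL N (x e))
      (by obtain ⟨e, he, hc⟩ := hex d
          exact ⟨e, Finset.mem_filter.2 ⟨he, hc⟩⟩)
    obtain ⟨hPS, hPc⟩ := Finset.mem_filter.1 hPm
    obtain ⟨hQS, hQc⟩ := Finset.mem_filter.1 hQm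
    have hPmin' : ∀ e ∈ S, col e = d → x P ≤ x e :=
      fun e he hc => hPmin e (Finset.mem_filter.2 ⟨he, hc⟩)
    have hQmin' : ∀ e ∈ S, col e = d → dL N (x Q) ≤ dL N (x e) :=
      fun e he hc => hQmin e (Finset.mem_filter.2 ⟨he, hc⟩)
    by_cases g1 : x X + dL N (x Q) ≤ N
    · exact fin2 X Q hXS hQS hXc (by rw [hQc]; exact hd0) (by rw [hQc]; exact hdX.symm) hXmin'
        (by rw [hQc]; exact hQmin') g1
    by_cases g2 : x P + dL N (x Y) ≤ N
    · exact fin3 P Y hPS hYS (by rw [hPc]; exact hd0) hYc (by rw [hPc, ← hXY]; exact hdX)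
        hYmin' (by rw [hPc]; exact hPmin') g2
    exfalso
    have hrP := hx P
    have hrQ := hx Q
    have hrX := hx X
    have hrY := hx Y
    have hXP := hXmin' P hPS (by rw [hPc]; exact hd0)
    have hYQ := hYmin' Q hQS (by rw [hQc]; exact hd0)
    have hPQ := hPmin' Q hQS hQc
    have hXQ := hXmin' Q hQS (by rw [hQc]; exact hd0)
    have harc : Arc N (x P) (2 * N - dL N (x Q)) := by
      unfold Arc dL at *
      split_ifs at * <;> omega
    have hsig := hH (col X) _ _ harc
    have hpt : ∀ e ∈ S, (if col e = d then (1 : ℤ) else 0) ≤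
        ctr N (col X) (x P) (2 * N - dL N (x Q)) (col e) (some (x e)) := by
      intro e he
      have hre := hx e
      rcases hcol3 e with h | h | h
      · have h1 : ¬ (0 : Fin 3) = d := fun h => hd0 h.symm
        have h2 : ¬ (0 : Fin 3) = col X := fun h => hXc h.symm
        simp only [ctr, h, h1, h2, if_false]
        split_ifs <;> omega
      · have h1 : ¬ col X = d := fun h => hdX h.symm
        have hn : ¬ Mem N (x P) (2 * N - dL N (x Q)) (anti N (x e)) := by
          have a1 := hXmin' e he (by rw [h]; exact hXc)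
          have a2 := hYmin' e he (by rw [h]; exact hXc)
          unfold dL at *
          unfold Mem anti
          split_ifs at * <;> omega
        simp only [ctr, h, h1, if_true, if_false, hn]
        omega
      · have hm : Mem N (x P) (2 * N - dL N (x Q)) (x e) := by
          have a1 := hPmin' e he h
          have a2 := hQmin' e he h
          unfold dL at *
          unfold Mem
          split_ifs at * <;> omega
        simp only [ctr, h, hdX, if_true, if_false, hm]
        omega
    have hsum := Finset.sum_le_sum hpt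
    rw [sum_col col S (n + 1) hb d] at hsum
    simp only [sig] at hsig
    push_cast at hsum
    omega
  · -- the nearest elements have different colours
    by_cases g1 : x X + dL N (x Y) ≤ N
    · exact fin2 X Y hXS hYS hXc hYc hXY hXmin'
        (fun e he hc => hYmin' e he (by rw [hc]; exact hYc)) g1
    exfalso
    have hrX := hx X
    have hrY := hx Y
    have hXY' := hXmin' Y hYS hYc
    have harc : Arc N (x X) (2 * N - dL N (x Y)) := by
      unfold Arc dL at *
      split_ifs at * <;> omega
    have hsig := hH 0 _ _ harc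
    have hcol3 : ∀ e, col e = 0 ∨ col e = col X ∨ col e = col Y := by
      intro e
      have : ∀ c cu cv : Fin 3, cu ≠ 0 → cv ≠ 0 → cu ≠ cv → c = 0 ∨ c = cu ∨ c = cv := by decide
      exact this (col e) _ _ hXc hYc hXY
    have hpt : ∀ e ∈ S, (if col e = col X then (1 : ℤ) else 0) +
        (if col e = col Y then (1 : ℤ) else 0) - (if col e = 0 then 1 else 0) ≤
        ctr N 0 (x X) (2 * N - dL N (x Y)) (col e) (some (x e)) := by
      intro e he
      have hre := hx e
      by_cases h0 : col e = 0
      · have h1 : ¬ (0 : Fin 3) = col X := fun h => hXc h.symm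
        have h2 : ¬ (0 : Fin 3) = col Y := fun h => hYc h.symm
        simp only [ctr, h0, h1, h2, if_true, if_false]
        split_ifs <;> omega
      · have hm : Mem N (x X) (2 * N - dL N (x Y)) (x e) := by
          have a1 := hXmin' e he h0
          have a2 := hYmin' e he h0
          unfold dL at *
          unfold Mem
          split_ifs at * <;> omega
        simp only [ctr, h0, if_true, if_false, hm]
        split_ifs with p1 p2
        · exact absurd (p1.symm.trans p2) hXY
        all_goals omega
    have hsum := Finset.sum_le_sum hpt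
    rw [Finset.sum_sub_distrib, Finset.sum_add_distrib, sum_col col S (n + 1) hb (col X),
      sum_col col S (n + 1) hb (col Y), sum_col col S (n + 1) hb 0] at hsum
    simp only [sig] at hsig
    push_cast at hsum
    omega

/-- the slack case -/
lemma slack [DecidableEq E] (N : ℤ) (hN : 0 < N) (col : E → Fin 3) (x : E → ℤ)
    (S : Finset E) (n : ℕ) (hx : ∀ e, 0 ≤ x e ∧ x e < 2 * N) (hb : Bal col S (n + 1))
    (hH : Hall N col (fun e => some (x e)) S n)
    (ih : ∀ (x' : E → ℤ), (∀ e, 0 ≤ x' e ∧ x' e < 2 * N) → ∀ S' : Finset E, Bal col S' n →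
      Hall N col (fun e => some (x' e)) S' n → PM N col x' S' n) : PM N col x S (n + 1) := by
  obtain ⟨a, ha, hca⟩ : ∃ e ∈ S, col e = 0 := by
    have : 0 < (S.filter (fun e => col e = 0)).card := by rw [hb 0]; omega
    obtain ⟨e, he⟩ := Finset.card_pos.1 this
    exact ⟨e, (Finset.mem_filter.1 he).1, (Finset.mem_filter.1 he).2⟩
  have hxa := hx a
  obtain ⟨t, ht, hta⟩ : ∃ t, (0 ≤ t ∧ t < 2 * N) ∧ rot N t (x a) = N := by
    by_cases h : x a ≤ N
    · exact ⟨N - x a, by omega, by unfold rot; split_ifs <;> omega⟩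
    · exact ⟨3 * N - x a, by omega, by unfold rot; split_ifs <;> omega⟩
  refine pm_rot N col x S (n + 1) hx t ht ?_
  have hx' : ∀ e, 0 ≤ rot N t (x e) ∧ rot N t (x e) < 2 * N :=
    fun e => rot_range N t (x e) ht (hx e)
  exact slack_norm N hN col _ S n hx' hb (hall_rot N col x S n hx t ht hH)
    (fun S' => ih _ hx' S') a ha hca hta

end HP

end RD
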