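import Pool.Agent.Helper48.RD.Defs

/-!
# The joker lemma for colourful regression depth in the plane

If the Hall condition holds, every zero vector can be replaced by some non-zero position such that
the Hall condition still holds.
-/

namespace RD

namespace Joker

/-- the set of positions of `e0` (of colour `A`) blocked by the arc `t`. -/
def Bl (N : ℤ) (A : Fin 3) (t : Fin 3 × ℤ × ℤ) (p : ℤ) : Prop :=
  if t.1 = A then ¬ Mem N t.2.1 t.2.2 (anti N p) else Mem N t.2.1 t.2.2 p

instance (N : ℤ) (A : Fin 3) (t : Fin 3 × ℤ × ℤ) (p : ℤ) : Decidable (Bl N A t p) := by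
  unfold Bl; infer_instance

/-- `F` blocks every position. -/
def Cov (N : ℤ) (A : Fin 3) (F : Finset (Fin 3 × ℤ × ℤ)) : Prop :=
  ∀ p, 0 ≤ p → p < 2 * N → ∃ t ∈ F, Bl N A t p

/-- The blocked set is a cyclic interval; seen from one of its points. -/
lemma bl_interval (N : ℤ) (A : Fin 3) (t : Fin 3 × ℤ × ℤ)
    (ht : Arc N t.2.1 t.2.2) (p : ℤ) (hp : 0 ≤ p ∧ p < 2 * N) (hb : Bl N A t p) :
    ∃ L R : ℤ, L ≤ p ∧ p ≤ R ∧ ∀ q, 0 ≤ q → q < 2 * N →
      (Bl N A t q ↔ ((L ≤ q ∧ q ≤ R) ∨ (L ≤ q + 2 * N ∧ q + 2 * N ≤ R) ∨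
        (L ≤ q - 2 * N ∧ q - 2 * N ≤ R))) := by
  obtain ⟨c, l, s⟩ := t
  simp only [Arc] at ht
  unfold Bl at hb ⊢
  simp only at hb ⊢
  by_cases hc : c = A
  · simp only [hc, if_true] at hb ⊢
    -- complement of the antipodal arc: `[s + N + 1, l + 3N - 1]` up to shifts
    unfold Mem anti at hb ⊢
    have key : (s + N + 1 ≤ p ∧ p ≤ l + 3 * N - 1) ∨
        (s + N + 1 ≤ p + 2 * N ∧ p + 2 * N ≤ l + 3 * N - 1) ∨
        (s + N + 1 ≤ p + 4 * N ∧ p + 4 * N ≤ l + 3 * N - 1) := by
      split_ifs at hb <;> omega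
    rcases key with h | h | h
    · refine ⟨s + N + 1, l + 3 * N - 1, h.1, h.2, fun q hq0 hq1 => ?_⟩
      split_ifs <;> omega
    · refine ⟨s + N + 1 - 2 * N, l + 3 * N - 1 - 2 * N, by omega, by omega,
        fun q hq0 hq1 => ?_⟩
      split_ifs <;> omega
    · refine ⟨s + N + 1 - 4 * N, l + 3 * N - 1 - 4 * N, by omega, by omega,
        fun q hq0 hq1 => ?_⟩
      split_ifs <;> omega
  · simp only [hc, if_false] at hb ⊢
    unfold Mem at hb ⊢
    rcases hb with hb | hb
    · refine ⟨l, s, hb.1, hb.2, fun q hq0 hq1 => ?_⟩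
      omega
    · refine ⟨l - 2 * N, s - 2 * N, by omega, by omega, fun q hq0 hq1 => ?_⟩
      omega

/-- Three blocked sets with a common point: one is covered by the other two. -/
lemma three_cover (N : ℤ) (A : Fin 3) (t₁ t₂ t₃ : Fin 3 × ℤ × ℤ)
    (h₁ : Arc N t₁.2.1 t₁.2.2) (h₂ : Arc N t₂.2.1 t₂.2.2) (h₃ : Arc N t₃.2.1 t₃.2.2)
    (p : ℤ) (hp : 0 ≤ p ∧ p < 2 * N) (b₁ : Bl N A t₁ p) (b₂ : Bl N A t₂ p) (b₃ : Bl N A t₃ p) :
    (∀ q, 0 ≤ q → q < 2 * N → Bl N A t₁ q → Bl N A t₂ q ∨ Bl N A t₃ q) ∨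
    (∀ q, 0 ≤ q → q < 2 * N → Bl N A t₂ q → Bl N A t₁ q ∨ Bl N A t₃ q) ∨
    (∀ q, 0 ≤ q → q < 2 * N → Bl N A t₃ q → Bl N A t₁ q ∨ Bl N A t₂ q) := by
  obtain ⟨L₁, R₁, l₁, r₁, i₁⟩ := bl_interval N A t₁ h₁ p hp b₁
  obtain ⟨L₂, R₂, l₂, r₂, i₂⟩ := bl_interval N A t₂ h₂ p hp b₂
  obtain ⟨L₃, R₃, l₃, r₃, i₃⟩ := bl_interval N A t₃ h₃ p hp b₃
  by_cases c1 : (L₂ ≤ L₁ ∨ L₃ ≤ L₁) ∧ (R₁ ≤ R₂ ∨ R₁ ≤ R₃)
  · left
    intro q q0 q1 hq
    rw [i₁ q q0 q1] at hq
    rw [i₂ q q0 q1, i₃ q q0 q1]
    clear i₁ i₂ i₃ b₁ b₂ b₃ h₁ h₂ h₃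
    omega
  by_cases c2 : (L₁ ≤ L₂ ∨ L₃ ≤ L₂) ∧ (R₂ ≤ R₁ ∨ R₂ ≤ R₃)
  · right; left
    intro q q0 q1 hq
    rw [i₂ q q0 q1] at hq
    rw [i₁ q q0 q1, i₃ q q0 q1]
    clear i₁ i₂ i₃ b₁ b₂ b₃ h₁ h₂ h₃
    omega
  have c3 : (L₁ ≤ L₃ ∨ L₂ ≤ L₃) ∧ (R₃ ≤ R₁ ∨ R₃ ≤ R₂) := by
    clear i₁ i₂ i₃ b₁ b₂ b₃ h₁ h₂ h₃
    omega
  right; right
  intro q q0 q1 hq
  rw [i₃ q q0 q1] at hq
  rw [i₁ q q0 q1, i₂ q q0 q1]
  clear i₁ i₂ i₃ b₁ b₂ b₃ h₁ h₂ h₃
  omega

lemma anti_range (N p : ℤ) (hp : 0 ≤ p ∧ p < 2 * N) :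
    0 ≤ anti N p ∧ anti N p < 2 * N := by
  unfold anti; split_ifs <;> omega

lemma anti_anti (N p : ℤ) (hp : 0 ≤ p ∧ p < 2 * N) : anti N (anti N p) = p := by
  unfold anti; split_ifs <;> omega

lemma not_both (N l s p : ℤ) (ha : Arc N l s) (hp : 0 ≤ p ∧ p < 2 * N)
    (h1 : Mem N l s p) (h2 : Mem N l s (anti N p)) : False := by
  unfold Arc at ha
  unfold Mem anti at *
  split_ifs at h2 <;> omega

variable {E : Type*} [DecidableEq E]

lemma sig_update (N : ℤ) (col : E → Fin 3) (pos : E → Option ℤ) (S : Finset E) (c : Fin 3)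
    (l s : ℤ) (e₀ : E) (he : e₀ ∈ S) (hp : pos e₀ = none) (p : ℤ) :
    sig N col (Function.update pos e₀ (some p)) S c l s =
      sig N col pos S c l s + (if Bl N (col e₀) (c, l, s) p then 1 else 0) := by
  unfold sig
  rw [← Finset.add_sum_erase S _ he, ← Finset.add_sum_erase S (fun e => ctr N c l s (col e) (pos e)) he]
  have h : ∑ x ∈ S.erase e₀, ctr N c l s (col x) (Function.update pos e₀ (some p) x) =
      ∑ x ∈ S.erase e₀, ctr N c l s (col x) (pos x) := by
    refine Finset.sum_congr rfl fun x hx => ?_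
    rw [Function.update_of_ne (Finset.ne_of_mem_erase hx)]
  rw [h]
  simp only [Function.update_self, hp, ctr, Bl]
  by_cases h1 : col e₀ = c
  · subst h1
    by_cases h2 : Mem N l s (anti N p) <;> simp [h2]
  · have h1' : ¬ c = col e₀ := fun h => h1 h.symm
    by_cases h2 : Mem N l s p <;> simp [h1, h1', h2]
    ring

/-- Pointwise bound for the elements of the colour of the joker. -/
lemma ctr_own (N : ℤ) (A : Fin 3) (t : Fin 3 × ℤ × ℤ) (p : ℤ) :
    ctr N t.1 t.2.1 t.2.2 A (some p) =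
      (if Bl N A t p then 1 else 0) - (if t.1 = A then 1 else 0) := by
  simp only [ctr, Bl]
  by_cases h : A = t.1
  · subst h
    by_cases h2 : Mem N t.2.1 t.2.2 (anti N p) <;> simp [h2]
  · have h' : ¬ t.1 = A := fun e => h e.symm
    simp [h, h']

/-- Pointwise bound for the elements of the two other colours. -/
lemma ctr_other (N : ℤ) (A k : Fin 3) (hk : k ≠ A) (t : Fin 3 × ℤ × ℤ)
    (ht : Arc N t.2.1 t.2.2) (p : ℤ) (hp : 0 ≤ p ∧ p < 2 * N) :
    ctr N t.1 t.2.1 t.2.2 k (some p) ≤
      1 - (if t.1 = k then 1 else 0) - (if Bl N A t (anti N p) then 1 else 0) := by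
  simp only [ctr, Bl, anti_anti N p hp]
  by_cases h : k = t.1
  · have hA : ¬ t.1 = A := fun e => hk (h.trans e)
    simp only [h, if_true, hA, if_false]
    split_ifs <;> omega
  · have h' : ¬ t.1 = k := fun e => h e.symm
    simp only [h, h', if_false]
    have := not_both N _ _ p ht hp
    split_ifs <;> first | omega | (exfalso; tauto)

theorem step (N : ℤ) (hN : 0 < N) (col : E → Fin 3) (pos : E → Option ℤ) (S : Finset E)
    (r : ℕ) (hR : InRange N pos) (hb : Bal col S r) (hH : Hall N col pos S r) (e₀ : E)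
    (he : e₀ ∈ S) (hp : pos e₀ = none) :
    ∃ p, 0 ≤ p ∧ p < 2 * N ∧ Hall N col (Function.update pos e₀ (some p)) S r := by
  classical
  by_contra hcon
  push Not at hcon
  set A := col e₀ with hA
  -- the tight arcs
  set T : Finset (Fin 3 × ℤ × ℤ) :=
    (Finset.univ ×ˢ (Finset.Icc 0 (2 * N)) ×ˢ (Finset.Icc 0 (3 * N))).filter
      (fun t => Arc N t.2.1 t.2.2 ∧ sig N col pos S t.1 t.2.1 t.2.2 = r) with hT
  have hTa : ∀ t ∈ T, Arc N t.2.1 t.2.2 := fun t ht => (Finset.mem_filter.1 ht).2.1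
  have hTs : ∀ t ∈ T, sig N col pos S t.1 t.2.1 t.2.2 = r :=
    fun t ht => (Finset.mem_filter.1 ht).2.2
  have hcov : ∀ p, 0 ≤ p → p < 2 * N → ∃ t ∈ T, Bl N A t p := by
    intro p p0 p1
    have h := hcon p p0 p1
    unfold Hall at h
    push Not at h
    obtain ⟨c, l, s, ha, hs⟩ := h
    rw [sig_update N col pos S c l s e₀ he hp p] at hs
    have h2 := hH c l s ha
    refine ⟨(c, l, s), ?_, ?_⟩
    · refine Finset.mem_filter.2 ⟨?_, ha, ?_⟩
      · simp only [Finset.mem_product, Finset.mem_univ, Finset.mem_Icc, true_and]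
        unfold Arc at ha
        omega
      · simp only
        split_ifs at hs <;> omega
    · by_contra hne
      rw [if_neg hne] at hs
      omega
  -- a cover of minimal cardinality
  set C : Finset (Finset (Fin 3 × ℤ × ℤ)) :=
    T.powerset.filter (fun F => Cov N A F) with hC
  have hCne : C.Nonempty :=
    ⟨T, Finset.mem_filter.2 ⟨Finset.mem_powerset_self T, hcov⟩⟩
  obtain ⟨F, hFC, hmin⟩ := Finset.exists_min_image C Finset.card hCne
  obtain ⟨hFT, hF⟩ := Finset.mem_filter.1 hFC
  rw [Finset.mem_powerset] at hFT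
  have hnot : ∀ c ∈ F, ∀ a ∈ F, ∀ b ∈ F, a ≠ c → b ≠ c →
      (∀ q, 0 ≤ q → q < 2 * N → Bl N A c q → Bl N A a q ∨ Bl N A b q) → False := by
    intro c hc a ha b hb' hac hbc hq
    have hmem : F.erase c ∈ C := by
      refine Finset.mem_filter.2 ⟨Finset.mem_powerset.2 ((Finset.erase_subset _ _).trans hFT), ?_⟩
      intro p p0 p1
      obtain ⟨t, ht, htp⟩ := hF p p0 p1
      by_cases htc : t = c
      · subst htc
        rcases hq p p0 p1 htp with h | h
        · exact ⟨a, Finset.mem_erase.2 ⟨hac, ha⟩, h⟩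
        · exact ⟨b, Finset.mem_erase.2 ⟨hbc, hb'⟩, h⟩
      · exact ⟨t, Finset.mem_erase.2 ⟨htc, ht⟩, htp⟩
    have := hmin _ hmem
    rw [Finset.card_erase_of_mem hc] at this
    have hpos : 0 < F.card := Finset.card_pos.2 ⟨c, hc⟩
    omega
  -- cover number
  have hcard2 : ∀ p, 0 ≤ p → p < 2 * N → (F.filter (fun t => Bl N A t p)).card ≤ 2 := by
    intro p p0 p1
    by_contra hlt
    push Not at hlt
    obtain ⟨x, hx, y, hy, z, hz, hxy, hxz, hyz⟩ := (Finset.two_lt_card).1 hlt
    rw [Finset.mem_filter] at hx hy hz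
    rcases three_cover N A x y z (hTa x (hFT hx.1)) (hTa y (hFT hy.1)) (hTa z (hFT hz.1)) p
      ⟨p0, p1⟩ hx.2 hy.2 hz.2 with h | h | h
    · exact hnot x hx.1 y hy.1 z hz.1 hxy.symm hxz.symm h
    · exact hnot y hy.1 x hx.1 z hz.1 hxy hyz.symm h
    · exact hnot z hz.1 x hx.1 y hy.1 hxz hyz h
  have hcard1 : ∀ p, 0 ≤ p → p < 2 * N → 1 ≤ (F.filter (fun t => Bl N A t p)).card := by
    intro p p0 p1
    obtain ⟨t, ht, htp⟩ := hF p p0 p1
    exact Finset.card_pos.2 ⟨t, Finset.mem_filter.2 ⟨ht, htp⟩⟩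
  have hFne : 1 ≤ F.card := by
    obtain ⟨t, ht, -⟩ := hF 0 le_rfl (by omega)
    exact Finset.card_pos.2 ⟨t, ht⟩
  -- counting
  set m : Fin 3 → ℤ := fun c => ∑ t ∈ F, (if t.1 = c then (1 : ℤ) else 0) with hm
  set f : E → ℤ := fun e => ∑ t ∈ F, ctr N t.1 t.2.1 t.2.2 (col e) (pos e) with hf
  set g : Fin 3 → ℤ := fun c => if c = A then 2 - m A else F.card - m c - 1 with hg
  have hmle : ∀ c, m c ≤ F.card := by
    intro c
    rw [hm]
    simp only [Finset.card_eq_sum_ones, Nat.cast_sum, Nat.cast_one]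
    exact Finset.sum_le_sum fun t _ => by split_ifs <;> omega
  have hmsum : m 0 + m 1 + m 2 = F.card := by
    rw [hm]
    simp only [Finset.card_eq_sum_ones, Nat.cast_sum, Nat.cast_one]
    rw [← Finset.sum_add_distrib, ← Finset.sum_add_distrib]
    refine Finset.sum_congr rfl fun t _ => ?_
    have : t.1 = 0 ∨ t.1 = 1 ∨ t.1 = 2 := by
      rcases t with ⟨c, _⟩
      fin_cases c <;> simp
    rcases this with h | h | h <;> rw [h] <;> decide
  have hcov_sum : ∀ p, (∑ t ∈ F, (if Bl N A t p then (1 : ℤ) else 0)) =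
      (F.filter (fun t => Bl N A t p)).card := by
    intro p
    rw [Finset.sum_boole]
  have hfg : ∀ e ∈ S, f e ≤ g (col e) := by
    intro e _
    by_cases hce : col e = A
    · have hgA : g (col e) = 2 - m A := by rw [hg]; simp [hce]
      rw [hgA, hf]
      simp only [hce]
      cases hpe : pos e with
      | none =>
        have : (∑ t ∈ F, ctr N t.1 t.2.1 t.2.2 A none) = - m A := by
          rw [hm, ← Finset.sum_neg_distrib]
          refine Finset.sum_congr rfl fun t _ => ?_
          simp only [ctr]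
          by_cases h : A = t.1
          · simp [h]
          · have h' : ¬ t.1 = A := fun e => h e.symm
            simp [h, h']
        rw [this]; omega
      | some p =>
        have hpr := hR e p hpe
        have : (∑ t ∈ F, ctr N t.1 t.2.1 t.2.2 A (some p)) =
            (F.filter (fun t => Bl N A t p)).card - m A := by
          rw [← hcov_sum p, hm, ← Finset.sum_sub_distrib]
          exact Finset.sum_congr rfl fun t _ => ctr_own N A t p
        rw [this]
        have := hcard2 p hpr.1 hpr.2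
        omega
    · have hgc : g (col e) = F.card - m (col e) - 1 := by rw [hg]; simp [hce]
      rw [hgc, hf]
      simp only
      cases hpe : pos e with
      | none =>
        have : (∑ t ∈ F, ctr N t.1 t.2.1 t.2.2 (col e) none) = - m (col e) := by
          rw [hm, ← Finset.sum_neg_distrib]
          refine Finset.sum_congr rfl fun t _ => ?_
          simp only [ctr]
          by_cases h : col e = t.1
          · simp [h]
          · have h' : ¬ t.1 = col e := fun e => h e.symm
            simp [h, h']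
        rw [this]; omega
      | some p =>
        have hpr := hR e p hpe
        have : (∑ t ∈ F, ctr N t.1 t.2.1 t.2.2 (col e) (some p)) ≤
            F.card - m (col e) - (F.filter (fun t => Bl N A t (anti N p))).card := by
          rw [← hcov_sum (anti N p), hm, Finset.card_eq_sum_ones]
          push_cast
          rw [← Finset.sum_sub_distrib, ← Finset.sum_sub_distrib]
          exact Finset.sum_le_sum fun t ht =>
            ctr_other N A (col e) hce t (hTa t (hFT ht)) p hpr
        have h1 := hcard1 (anti N p) (anti_range N p hpr).1 (anti_range N p hpr).2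
        omega
  have hf0 : f e₀ < g (col e₀) := by
    have hgA : g (col e₀) = 2 - m A := by rw [hg]; simp [hA]
    rw [hgA, hf]
    simp only [hp, ← hA]
    have : (∑ t ∈ F, ctr N t.1 t.2.1 t.2.2 A none) = - m A := by
      rw [hm, ← Finset.sum_neg_distrib]
      refine Finset.sum_congr rfl fun t _ => ?_
      simp only [ctr]
      by_cases h : A = t.1
      · simp [h]
      · have h' : ¬ t.1 = A := fun e => h e.symm
        simp [h, h']
    rw [this]; omega
  have hlt : ∑ e ∈ S, f e < ∑ e ∈ S, g (col e) :=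
    Finset.sum_lt_sum hfg ⟨e₀, he, hf0⟩
  have hsumf : ∑ e ∈ S, f e = F.card * r := by
    rw [hf, Finset.sum_comm]
    have : ∀ t ∈ F, ∑ e ∈ S, ctr N t.1 t.2.1 t.2.2 (col e) (pos e) = r :=
      fun t ht => hTs t (hFT ht)
    rw [Finset.sum_congr rfl this, Finset.sum_const]
    simp
  have hsumg : ∑ e ∈ S, g (col e) = ∑ c : Fin 3, (r : ℤ) * g c := by
    rw [← Finset.sum_fiberwise S col (fun e => g (col e))]
    refine Finset.sum_congr rfl fun c _ => ?_
    have : ∀ e ∈ S.filter (fun e => col e = c), g (col e) = g c := by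
      intro e he'
      rw [(Finset.mem_filter.1 he').2]
    rw [Finset.sum_congr rfl this, Finset.sum_const, hb c]
    simp
  have hgsum : g 0 + g 1 + g 2 = F.card := by
    have hA3 : A = 0 ∨ A = 1 ∨ A = 2 := by
      clear_value A
      fin_cases A <;> simp
    rw [hg]
    rcases hA3 with h | h | h <;> rw [h] <;> simp <;> omega
  rw [hsumf, hsumg, Fin.sum_univ_three, ← mul_add, ← mul_add, hgsum] at hlt
  rw [mul_comm] at hlt
  exact lt_irrefl _ hlt

end Joker

/-- **The joker lemma.** -/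
theorem joker {E : Type*} [DecidableEq E] (N : ℤ) (hN : 0 < N) (col : E → Fin 3)
    (pos : E → Option ℤ) (S : Finset E) (r : ℕ) (hR : InRange N pos) (hb : Bal col S r)
    (hH : Hall N col pos S r) :
    ∃ x : E → ℤ, (∀ e, 0 ≤ x e ∧ x e < 2 * N) ∧ (∀ e y, pos e = some y → x e = y) ∧
      Hall N col (fun e => some (x e)) S r := by
  induction hn : (S.filter (fun e => pos e = none)).card using Nat.strong_induction_on
    generalizing pos with
  | _ n ih =>
    by_cases hne : ∃ e₀ ∈ S, pos e₀ = none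
    · obtain ⟨e₀, he, hp⟩ := hne
      obtain ⟨p, p0, p1, hH'⟩ := Joker.step N hN col pos S r hR hb hH e₀ he hp
      have hR' : InRange N (Function.update pos e₀ (some p)) := by
        intro e x hx
        by_cases h : e = e₀
        · subst h
          rw [Function.update_self] at hx
          cases hx
          exact ⟨p0, p1⟩
        · rw [Function.update_of_ne h] at hx
          exact hR e x hx
      have hlt : (S.filter (fun e => Function.update pos e₀ (some p) e = none)).card < n := by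
        rw [← hn]
        refine Finset.card_lt_card ?_
        rw [Finset.ssubset_iff_of_subset]
        · refine ⟨e₀, Finset.mem_filter.2 ⟨he, hp⟩, fun h => ?_⟩
          have := (Finset.mem_filter.1 h).2
          rw [Function.update_self] at this
          cases this
        · intro e hemem
          obtain ⟨h1, h2⟩ := Finset.mem_filter.1 hemem
          refine Finset.mem_filter.2 ⟨h1, ?_⟩
          by_cases h : e = e₀
          · rw [h, Function.update_self] at h2
            cases h2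
          · rwa [Function.update_of_ne h] at h2
      obtain ⟨x, hx1, hx2, hx3⟩ := ih _ hlt (Function.update pos e₀ (some p)) hR' hH' rfl
      refine ⟨x, hx1, fun e y hy => ?_, hx3⟩
      have h : e ≠ e₀ := by
        rintro rfl
        rw [hp] at hy
        cases hy
      exact hx2 e y (by rw [Function.update_of_ne h]; exact hy)
    · push Not at hne
      refine ⟨fun e => (pos e).getD 0, ?_, ?_, ?_⟩
      · intro e
        cases hpe : pos e with
        | none => simp only [hpe, Option.getD_none]; omega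
        | some p => simpa [hpe] using hR e p hpe
      · intro e y hy
        simp [hy]
      · intro c l s ha
        have h := hH c l s ha
        have heq : sig N col (fun e => some ((pos e).getD 0)) S c l s =
            sig N col pos S c l s := by
          unfold sig
          refine Finset.sum_congr rfl fun e he => ?_
          cases hpe : pos e with
          | none => exact absurd hpe (hne e he)
          | some p => simp [hpe]
        rw [heq]
        exact h

end RD
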