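import Pool.Agent.Helper45.RD.HallPM
import Pool.Agent.Helper48.RD.Linear

namespace RD

namespace HP

/-- minus letters -/
def isM (N k : ℤ) (c : Fin 3) (p : ℤ) : Prop := if c = 0 then N ≤ p ∧ p ≤ N + k else k < p

instance (N k : ℤ) (c : Fin 3) (p : ℤ) : Decidable (isM N k c p) := by
  unfold isM; infer_instance

/-- word position -/
def wd (N k : ℤ) (c : Fin 3) (p : ℤ) : ℤ := if isM N k c p then p else anti N p

/-- contribution to the right-hand threshold inequality -/
def fR (N k : ℤ) (Z : Fin 3) (s t : ℤ) (c : Fin 3) (p : ℤ) : ℤ :=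
  (if ¬ isM N k c p ∧ (if c = Z then t ≤ wd N k c p else s ≤ wd N k c p) then 1 else 0) -
  (if isM N k c p ∧ (if c = Z then s ≤ wd N k c p else t ≤ wd N k c p) then 1 else 0)

variable {E : Type*}

lemma sum_alpha [DecidableEq E] (col : E → Fin 3) (S : Finset E) (r : ℕ) (hb : Bal col S r)
    (α : Fin 3 → ℤ) : ∑ e ∈ S, α (col e) = r * (α 0 + α 1 + α 2) := by
  rw [← Finset.sum_fiberwise S col (fun e => α (col e))]
  have : ∀ c, ∑ e ∈ S with col e = c, α (col e) = r * α c := by
    intro c
    have h2 : ∀ e ∈ S.filter (fun e => col e = c), α (col e) = α c := by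
      intro e he'
      rw [(Finset.mem_filter.1 he').2]
    rw [Finset.sum_congr rfl h2, Finset.sum_const, hb c]
    simp
  rw [Finset.sum_congr rfl (fun c _ => this c), Fin.sum_univ_three]
  ring

lemma rule0 [DecidableEq E] (N k : ℤ) (col : E → Fin 3) (x : E → ℤ) (S : Finset E) (r : ℕ)
    (hx : ∀ e, 0 ≤ x e ∧ x e < 2 * N) (hb : Bal col S r)
    (htight : sig N col (fun e => some (x e)) S 0 0 k = r) (Z : Fin 3) (s t : ℤ)
    (τ : ℤ) (α : Fin 3 → ℤ) (hα : - τ ≤ α 0 + α 1 + α 2)
    (hpt : ∀ c p, 0 ≤ p → p < 2 * N → τ * ctr N 0 0 k c (some p) + α c ≤ fR N k Z s t c p) :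
    0 ≤ ∑ e ∈ S, fR N k Z s t (col e) (x e) := by
  have h := Finset.sum_le_sum (fun e (_ : e ∈ S) => hpt (col e) (x e) (hx e).1 (hx e).2)
  rw [Finset.sum_add_distrib, ← Finset.mul_sum, sum_alpha col S r hb α] at h
  have h2 : ∑ e ∈ S, ctr N 0 0 k (col e) (some (x e)) = r := htight
  rw [h2] at h
  have h3 : (0 : ℤ) ≤ r := Int.natCast_nonneg r
  nlinarith

lemma rule1 [DecidableEq E] (N k : ℤ) (col : E → Fin 3) (x : E → ℤ) (S : Finset E) (r : ℕ)
    (hx : ∀ e, 0 ≤ x e ∧ x e < 2 * N) (hb : Bal col S r)
    (hH : Hall N col (fun e => some (x e)) S r)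
    (htight : sig N col (fun e => some (x e)) S 0 0 k = r) (Z : Fin 3) (s t : ℤ)
    (τ : ℤ) (c' : Fin 3) (l' s' : ℤ) (harc : Arc N l' s') (α : Fin 3 → ℤ)
    (hα : 1 - τ ≤ α 0 + α 1 + α 2)
    (hpt : ∀ c p, 0 ≤ p → p < 2 * N →
      τ * ctr N 0 0 k c (some p) - ctr N c' l' s' c (some p) + α c ≤ fR N k Z s t c p) :
    0 ≤ ∑ e ∈ S, fR N k Z s t (col e) (x e) := by
  have h := Finset.sum_le_sum (fun e (_ : e ∈ S) => hpt (col e) (x e) (hx e).1 (hx e).2)
  rw [Finset.sum_add_distrib, Finset.sum_sub_distrib, ← Finset.mul_sum,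
    sum_alpha col S r hb α] at h
  have h2 : ∑ e ∈ S, ctr N 0 0 k (col e) (some (x e)) = r := htight
  have h4 : ∑ e ∈ S, ctr N c' l' s' (col e) (some (x e)) ≤ r := hH c' l' s' harc
  rw [h2] at h
  have h3 : (0 : ℤ) ≤ r := Int.natCast_nonneg r
  nlinarith

/-- all the cases of the threshold inequality -/
lemma fR_sum_nonneg [DecidableEq E] (N k : ℤ) (hk : 0 ≤ k ∧ k < N) (col : E → Fin 3)
    (x : E → ℤ) (S : Finset E) (r : ℕ)
    (hx : ∀ e, 0 ≤ x e ∧ x e < 2 * N) (hb : Bal col S r)
    (hH : Hall N col (fun e => some (x e)) S r)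
    (htight : sig N col (fun e => some (x e)) S 0 0 k = r) (Z : Fin 3) (s t : ℤ)
    (h1 : k + 1 ≤ s) (h2 : s ≤ t) (h3 : t ≤ 2 * N) :
    0 ≤ ∑ e ∈ S, fR N k Z s t (col e) (x e) := by
  fin_cases Z
  · by_cases a : s ≤ N
    · refine rule0 N k col x S r hx hb htight _ s t 2 ![0, -1, -1] (by decide) ?_
      intro c p p0 p1
      fin_cases c <;> simp [fR, isM, wd, ctr, Mem, anti] <;> split_ifs <;> omega
    · by_cases b : s ≤ N + k
      · by_cases d : t = 2 * N
        · refine rule1 N k col x S r hx hb hH htight _ s t 1 0 (0) (s - N - 1) (by unfold Arc; omega)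
            ![0, 0, 0] (by decide) ?_
          intro c p p0 p1
          fin_cases c <;> simp [fR, isM, wd, ctr, Mem, anti] <;> split_ifs <;> omega
        · refine rule1 N k col x S r hx hb hH htight _ s t 1 0 (t) (s + N - 1) (by unfold Arc; omega)
            ![0, 0, 0] (by decide) ?_
          intro c p p0 p1
          fin_cases c <;> simp [fR, isM, wd, ctr, Mem, anti] <;> split_ifs <;> omega
      · by_cases d : t = 2 * N
        · refine rule1 N k col x S r hx hb hH htight _ s t 1 0 (0) (k) (by unfold Arc; omega)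
            ![0, 0, 0] (by decide) ?_
          intro c p p0 p1
          fin_cases c <;> simp [fR, isM, wd, ctr, Mem, anti] <;> split_ifs <;> omega
        · refine rule1 N k col x S r hx hb hH htight _ s t 1 0 (t) (2 * N + k) (by unfold Arc; omega)
            ![0, 0, 0] (by decide) ?_
          intro c p p0 p1
          fin_cases c <;> simp [fR, isM, wd, ctr, Mem, anti] <;> split_ifs <;> omega
  · by_cases a : s < N
    · by_cases b : t ≤ N
      · refine rule0 N k col x S r hx hb htight _ s t 2 ![0, -1, -1] (by decide) ?_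
        intro c p p0 p1
        fin_cases c <;> simp [fR, isM, wd, ctr, Mem, anti] <;> split_ifs <;> omega
      · by_cases d : t ≤ N + k
        · by_cases e : k = N - 1
          · refine rule1 N k col x S r hx hb hH htight _ s t 2 2 (0) (t - N - 1) (by unfold Arc; omega)
              ![1, -1, -1] (by decide) ?_
            intro c p p0 p1
            fin_cases c <;> simp [fR, isM, wd, ctr, Mem, anti] <;> split_ifs <;> omega
          · refine rule1 N k col x S r hx hb hH htight _ s t 2 2 (N + k + 1) (t + N - 1) (by unfold Arc; omega)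
              ![1, -1, -1] (by decide) ?_
            intro c p p0 p1
            fin_cases c <;> simp [fR, isM, wd, ctr, Mem, anti] <;> split_ifs <;> omega
        · by_cases e : t = 2 * N
          · refine rule0 N k col x S r hx hb htight _ s t 1 ![0, -1, 0] (by decide) ?_
            intro c p p0 p1
            fin_cases c <;> simp [fR, isM, wd, ctr, Mem, anti] <;> split_ifs <;> omega
          · refine rule1 N k col x S r hx hb hH htight _ s t 2 0 (N + k + 1) (2 * N + k) (by unfold Arc; omega)
              ![0, -1, 0] (by decide) ?_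
            intro c p p0 p1
            fin_cases c <;> simp [fR, isM, wd, ctr, Mem, anti] <;> split_ifs <;> omega
    · by_cases b : s ≤ N + k
      · by_cases d : t ≤ N + k + 1
        · by_cases e : t = 2 * N
          · by_cases g : s = N
            · refine rule0 N k col x S r hx hb htight _ s t 1 ![1, -1, 0] (by decide) ?_
              intro c p p0 p1
              fin_cases c <;> simp [fR, isM, wd, ctr, Mem, anti] <;> split_ifs <;> omega
            · refine rule1 N k col x S r hx hb hH htight _ s t 1 1 (0) (s - N - 1) (by unfold Arc; omega)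
                ![1, -1, 0] (by decide) ?_
              intro c p p0 p1
              fin_cases c <;> simp [fR, isM, wd, ctr, Mem, anti] <;> split_ifs <;> omega
          · refine rule1 N k col x S r hx hb hH htight _ s t 1 1 (t) (s + N - 1) (by unfold Arc; omega)
              ![1, -1, 0] (by decide) ?_
            intro c p p0 p1
            fin_cases c <;> simp [fR, isM, wd, ctr, Mem, anti] <;> split_ifs <;> omega
        · refine rule1 N k col x S r hx hb hH htight _ s t 1 1 (N + k + 1) (s + N - 1) (by unfold Arc; omega)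
            ![1, -1, 0] (by decide) ?_
          intro c p p0 p1
          fin_cases c <;> simp [fR, isM, wd, ctr, Mem, anti] <;> split_ifs <;> omega
      · by_cases d : s = 2 * N
        · refine rule1 N k col x S r hx hb hH htight _ s t 1 0 (0) (k) (by unfold Arc; omega)
            ![0, 0, 0] (by decide) ?_
          intro c p p0 p1
          fin_cases c <;> simp [fR, isM, wd, ctr, Mem, anti] <;> split_ifs <;> omega
        · refine rule1 N k col x S r hx hb hH htight _ s t 1 0 (s) (2 * N + k) (by unfold Arc; omega)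
            ![0, 0, 0] (by decide) ?_
          intro c p p0 p1
          fin_cases c <;> simp [fR, isM, wd, ctr, Mem, anti] <;> split_ifs <;> omega
  · by_cases a : s < N
    · by_cases b : t ≤ N
      · refine rule0 N k col x S r hx hb htight _ s t 2 ![0, -1, -1] (by decide) ?_
        intro c p p0 p1
        fin_cases c <;> simp [fR, isM, wd, ctr, Mem, anti] <;> split_ifs <;> omega
      · by_cases d : t ≤ N + k
        · by_cases e : k = N - 1
          · refine rule1 N k col x S r hx hb hH htight _ s t 2 1 (0) (t - N - 1) (by unfold Arc; omega)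
              ![1, -1, -1] (by decide) ?_
            intro c p p0 p1
            fin_cases c <;> simp [fR, isM, wd, ctr, Mem, anti] <;> split_ifs <;> omega
          · refine rule1 N k col x S r hx hb hH htight _ s t 2 1 (N + k + 1) (t + N - 1) (by unfold Arc; omega)
              ![1, -1, -1] (by decide) ?_
            intro c p p0 p1
            fin_cases c <;> simp [fR, isM, wd, ctr, Mem, anti] <;> split_ifs <;> omega
        · by_cases e : t = 2 * N
          · refine rule0 N k col x S r hx hb htight _ s t 1 ![0, 0, -1] (by decide) ?_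
            intro c p p0 p1
            fin_cases c <;> simp [fR, isM, wd, ctr, Mem, anti] <;> split_ifs <;> omega
          · refine rule1 N k col x S r hx hb hH htight _ s t 2 0 (N + k + 1) (2 * N + k) (by unfold Arc; omega)
              ![0, 0, -1] (by decide) ?_
            intro c p p0 p1
            fin_cases c <;> simp [fR, isM, wd, ctr, Mem, anti] <;> split_ifs <;> omega
    · by_cases b : s ≤ N + k
      · by_cases d : t ≤ N + k + 1
        · by_cases e : t = 2 * N
          · by_cases g : s = N
            · refine rule0 N k col x S r hx hb htight _ s t 1 ![1, 0, -1] (by decide) ?_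
              intro c p p0 p1
              fin_cases c <;> simp [fR, isM, wd, ctr, Mem, anti] <;> split_ifs <;> omega
            · refine rule1 N k col x S r hx hb hH htight _ s t 1 2 (0) (s - N - 1) (by unfold Arc; omega)
                ![1, 0, -1] (by decide) ?_
              intro c p p0 p1
              fin_cases c <;> simp [fR, isM, wd, ctr, Mem, anti] <;> split_ifs <;> omega
          · refine rule1 N k col x S r hx hb hH htight _ s t 1 2 (t) (s + N - 1) (by unfold Arc; omega)
              ![1, 0, -1] (by decide) ?_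
            intro c p p0 p1
            fin_cases c <;> simp [fR, isM, wd, ctr, Mem, anti] <;> split_ifs <;> omega
        · refine rule1 N k col x S r hx hb hH htight _ s t 1 2 (N + k + 1) (s + N - 1) (by unfold Arc; omega)
            ![1, 0, -1] (by decide) ?_
          intro c p p0 p1
          fin_cases c <;> simp [fR, isM, wd, ctr, Mem, anti] <;> split_ifs <;> omega
      · by_cases d : s = 2 * N
        · refine rule1 N k col x S r hx hb hH htight _ s t 1 0 (0) (k) (by unfold Arc; omega)
            ![0, 0, 0] (by decide) ?_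
          intro c p p0 p1
          fin_cases c <;> simp [fR, isM, wd, ctr, Mem, anti] <;> split_ifs <;> omega
        · refine rule1 N k col x S r hx hb hH htight _ s t 1 0 (s) (2 * N + k) (by unfold Arc; omega)
            ![0, 0, 0] (by decide) ?_
          intro c p p0 p1
          fin_cases c <;> simp [fR, isM, wd, ctr, Mem, anti] <;> split_ifs <;> omega

lemma rh_card [DecidableEq E] (N k : ℤ) (hk : 0 ≤ k ∧ k < N) (col : E → Fin 3)
    (x : E → ℤ) (S : Finset E) (r : ℕ)
    (hx : ∀ e, 0 ≤ x e ∧ x e < 2 * N) (hb : Bal col S r)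
    (hH : Hall N col (fun e => some (x e)) S r)
    (htight : sig N col (fun e => some (x e)) S 0 0 k = r) (Z : Fin 3) (s t : ℤ)
    (h1 : k + 1 ≤ s) (h2 : s ≤ t) (h3 : t ≤ 2 * N) :
    ((S.filter (fun e => isM N k (col e) (x e))).filter
      (fun m => if col m = Z then s ≤ wd N k (col m) (x m) else t ≤ wd N k (col m) (x m))).card ≤
    ((S.filter (fun e => ¬ isM N k (col e) (x e))).filter
      (fun p => if col p = Z then t ≤ wd N k (col p) (x p) else s ≤ wd N k (col p) (x p))).card := by
  have h := fR_sum_nonneg N k hk col x S r hx hb hH htight Z s t h1 h2 h3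
  unfold fR at h
  rw [Finset.sum_sub_distrib, Finset.sum_boole, Finset.sum_boole] at h
  rw [Finset.filter_filter, Finset.filter_filter]
  omega

lemma isM_refl (N k : ℤ) (hk : 0 ≤ k ∧ k < N) (c : Fin 3) (p : ℤ) (hp : 0 ≤ p ∧ p < 2 * N) :
    isM N k c (refl N k p) ↔ isM N k c p := by
  unfold isM refl
  by_cases hc : c = 0
  · simp only [hc, if_true]; split_ifs <;> omega
  · simp only [hc, if_false]; split_ifs <;> omega

lemma wd_refl (N k : ℤ) (hk : 0 ≤ k ∧ k < N) (c : Fin 3) (p : ℤ) (hp : 0 ≤ p ∧ p < 2 * N) :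
    wd N k c (refl N k p) = 2 * N + k - wd N k c p := by
  unfold wd
  rw [if_congr (isM_refl N k hk c p hp) rfl rfl]
  unfold isM refl anti
  by_cases hc : c = 0
  · simp only [hc, if_true]; split_ifs <;> omega
  · simp only [hc, if_false]; split_ifs <;> omega

lemma lh_card [DecidableEq E] (N k : ℤ) (hk : 0 ≤ k ∧ k < N) (col : E → Fin 3)
    (x : E → ℤ) (S : Finset E) (r : ℕ)
    (hx : ∀ e, 0 ≤ x e ∧ x e < 2 * N) (hb : Bal col S r)
    (hH : Hall N col (fun e => some (x e)) S r)
    (htight : sig N col (fun e => some (x e)) S 0 0 k = r) (Z : Fin 3) (s t : ℤ)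
    (h1 : s ≤ 2 * N - 1) (h2 : t ≤ s) (h3 : k ≤ t) :
    ((S.filter (fun e => isM N k (col e) (x e))).filter
      (fun m => if col m = Z then wd N k (col m) (x m) ≤ s else wd N k (col m) (x m) ≤ t)).card ≤
    ((S.filter (fun e => ¬ isM N k (col e) (x e))).filter
      (fun p => if col p = Z then wd N k (col p) (x p) ≤ t else wd N k (col p) (x p) ≤ s)).card := by
  have hk' : 0 ≤ k ∧ k < 2 * N := by omega
  have htight' : sig N col (fun e => some (refl N k (x e))) S 0 0 k = r := by
    rw [← htight]
    unfold sig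
    refine Finset.sum_congr rfl fun e _ => ?_
    have hre := hx e
    have e1 : Mem N 0 k (refl N k (x e)) ↔ Mem N 0 k (x e) := by
      unfold Mem refl; split_ifs <;> omega
    have e2 : Mem N 0 k (anti N (refl N k (x e))) ↔ Mem N 0 k (anti N (x e)) := by
      unfold Mem anti refl; split_ifs <;> omega
    simp only [ctr, e1, e2]
  have h := rh_card N k hk col (fun e => refl N k (x e)) S r
    (fun e => refl_range N k (x e) hk' (hx e)) hb (hall_refl N col x S r hx k hk' hH) htight' Z
    (2 * N + k - s) (2 * N + k - t) (by omega) (by omega) (by omega)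
  have e1 : ∀ e, isM N k (col e) (refl N k (x e)) ↔ isM N k (col e) (x e) :=
    fun e => isM_refl N k hk (col e) (x e) (hx e)
  have e2 : ∀ e, wd N k (col e) (refl N k (x e)) = 2 * N + k - wd N k (col e) (x e) :=
    fun e => wd_refl N k hk (col e) (x e) (hx e)
  simp only [e1, e2] at h
  have e3 : ∀ e, (2 * N + k - s ≤ 2 * N + k - wd N k (col e) (x e)) ↔
      wd N k (col e) (x e) ≤ s := fun e => by omega
  have e4 : ∀ e, (2 * N + k - t ≤ 2 * N + k - wd N k (col e) (x e)) ↔
      wd N k (col e) (x e) ≤ t := fun e => by omega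
  simp only [e3, e4] at h
  exact h

lemma goodH (N k xm xL xR : ℤ) (hk : 0 ≤ k ∧ k < N) (hm : 0 ≤ xm ∧ xm < 2 * N)
    (hl : 0 ≤ xL ∧ xL < 2 * N) (hr : 0 ≤ xR ∧ xR < 2 * N) (h1 : anti N xL ≤ xm)
    (h2 : xm ≤ anti N xR)
    (h3 : (xL ≤ k ∧ ¬ (N ≤ xR ∧ xR ≤ N + k)) ∨ (¬ (N ≤ xL ∧ xL ≤ N + k) ∧ xR ≤ k))
    (hne : (xL ≤ k ∨ k < anti N xL) ∧ (xR ≤ k ∨ k < anti N xR)) :
    H N xm xR ∧ H N xL xm ∧ (H N xR xL ∨ H N xR xm) := by
  unfold H
  unfold anti at *
  split_ifs at * <;> omega

/-- the tight case in normal position -/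
lemma tight_norm [DecidableEq E] [Nonempty E] (N k : ℤ) (hk : 0 ≤ k ∧ k < N)
    (col : E → Fin 3) (x : E → ℤ) (S : Finset E) (r : ℕ)
    (hx : ∀ e, 0 ≤ x e ∧ x e < 2 * N) (hb : Bal col S r)
    (hH : Hall N col (fun e => some (x e)) S r)
    (htight : sig N col (fun e => some (x e)) S 0 0 k = r) : PM N col x S r := by
  set P := S.filter (fun e => ¬ isM N k (col e) (x e)) with hP
  set M := S.filter (fun e => isM N k (col e) (x e)) with hM
  have htight2 : ∑ e ∈ S, ctr N 0 0 k (col e) (some (x e)) = r := htight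
  have hmem : ∀ e, Mem N 0 k (x e) ↔ x e ≤ k := by
    intro e
    have := hx e
    unfold Mem; omega
  have hmem2 : ∀ e, Mem N 0 k (anti N (x e)) ↔ (N ≤ x e ∧ x e ≤ N + k) := by
    intro e
    have := hx e
    unfold Mem anti; split_ifs <;> omega
  have hcardM : M.card = r := by
    have h : ∑ e ∈ S, (if isM N k (col e) (x e) then (1 : ℤ) else 0) =
        ∑ e ∈ S, (- ctr N 0 0 k (col e) (some (x e)) + ![0, 1, 1] (col e)) := by
      refine Finset.sum_congr rfl fun e _ => ?_
      have hre := hx e
      have : ∀ c p, 0 ≤ p → p < 2 * N → (if isM N k c p then (1 : ℤ) else 0) =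
          - ctr N 0 0 k c (some p) + (![0, 1, 1] : Fin 3 → ℤ) c := by
        intro c p p0 p1
        fin_cases c <;> simp [isM, ctr, Mem, anti] <;> split_ifs <;> omega
      exact this _ _ hre.1 hre.2
    rw [Finset.sum_boole, Finset.sum_add_distrib, Finset.sum_neg_distrib, htight2,
      sum_alpha col S r hb ![0, 1, 1]] at h
    simp at h
    rw [← hM] at h
    omega
  have hbal : ∀ c, (P.filter (fun p => col p = c)).card = (M.filter (fun m => col m ≠ c)).card := by
    intro c
    have key : ∀ α : Fin 3 → ℤ, α 0 + α 1 + α 2 = -1 → (∀ c' p, 0 ≤ p → p < 2 * N →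
        (if ¬ isM N k c' p ∧ c' = c then (1 : ℤ) else 0) - (if isM N k c' p ∧ c' ≠ c then 1 else 0)
          = ctr N 0 0 k c' (some p) + α c') →
        (P.filter (fun p => col p = c)).card = (M.filter (fun m => col m ≠ c)).card := by
      intro α hα hpt
      have h := Finset.sum_congr rfl (fun e (_ : e ∈ S) => hpt (col e) (x e) (hx e).1 (hx e).2)
      rw [Finset.sum_sub_distrib, Finset.sum_boole, Finset.sum_boole, Finset.sum_add_distrib,
        htight2, sum_alpha col S r hb α, hα] at h
      rw [hP, hM, Finset.filter_filter, Finset.filter_filter]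
      omega
    fin_cases c
    · refine key ![1, -1, -1] (by decide) ?_
      intro c' p p0 p1
      fin_cases c' <;> simp [isM, ctr, Mem, anti] <;> split_ifs <;> omega
    · refine key ![0, 0, -1] (by decide) ?_
      intro c' p p0 p1
      fin_cases c' <;> simp [isM, ctr, Mem, anti] <;> split_ifs <;> omega
    · refine key ![0, -1, 0] (by decide) ?_
      intro c' p p0 p1
      fin_cases c' <;> simp [isM, ctr, Mem, anti] <;> split_ifs <;> omega
  obtain ⟨L, R, hLR, hdisj, hLinj, hRinj⟩ := linear_core' P M col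
    (fun e => wd N k (col e) (x e)) (k + 1) (2 * N)
    (by
      intro e _
      have hre := hx e
      have : ∀ c p, 0 ≤ p → p < 2 * N → k + 1 ≤ wd N k c p ∧ wd N k c p < 2 * N := by
        intro c p p0 p1
        fin_cases c <;> simp [isM, wd, anti] <;> split_ifs <;> omega
      exact this _ _ hre.1 hre.2)
    hbal
    (fun Z s t h1 h2 h3 => rh_card N k hk col x S r hx hb hH htight Z s t h1 h2 h3)
    (fun Z s t h1 h2 h3 => lh_card N k hk col x S r hx hb hH htight Z s t h1 h2 (by omega))
  set φ := (Finset.equivFinOfCardEq hcardM).symm with hφ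
  have hMS : ∀ m ∈ M, m ∈ S ∧ isM N k (col m) (x m) := fun m hm => by
    simpa [hM] using hm
  have hPS : ∀ p ∈ P, p ∈ S ∧ ¬ isM N k (col p) (x p) := fun p hp => by
    simpa [hP] using hp
  set T : Fin r → Fin 3 → E := fun i c =>
    if col (φ i : E) = c then (φ i : E) else if col (L (φ i)) = c then L (φ i) else R (φ i) with hT
  have hφM : ∀ i, (φ i : E) ∈ M := fun i => (φ i).2
  have hTm : ∀ i, T i (col (φ i : E)) = φ i := by intro i; rw [hT]; simp
  have hTL : ∀ i, T i (col (L (φ i))) = L (φ i) := by
    intro i; rw [hT]; simp [(hLR _ (hφM i)).2.2.2.2.1.symm]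
  have hTR : ∀ i, T i (col (R (φ i))) = R (φ i) := by
    intro i
    have h1 := (hLR _ (hφM i)).2.2.2.2.2.1.symm
    have h2 := (hLR _ (hφM i)).2.2.2.2.2.2
    rw [hT]; simp [h1, h2]
  have hc3 : ∀ i c, c = col (φ i : E) ∨ c = col (L (φ i)) ∨ c = col (R (φ i)) := by
    intro i c
    have : ∀ c ca cu cv : Fin 3, cu ≠ ca → cv ≠ ca → cu ≠ cv → c = ca ∨ c = cu ∨ c = cv := by
      decide
    exact this c _ _ _ (hLR _ (hφM i)).2.2.2.2.1 (hLR _ (hφM i)).2.2.2.2.2.1
      (hLR _ (hφM i)).2.2.2.2.2.2
  have hMP : ∀ m ∈ M, m ∉ P := fun m hm hp => (hPS m hp).2 (hMS m hm).2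
  refine ⟨T, ?_, ?_, ?_, ?_⟩
  · intro i c
    rcases hc3 i c with h | h | h <;> rw [h]
    · rw [hTm]; exact (hMS _ (hφM i)).1
    · rw [hTL]; exact (hPS _ (hLR _ (hφM i)).1).1
    · rw [hTR]; exact (hPS _ (hLR _ (hφM i)).2.1).1
  · intro i c
    rcases hc3 i c with h | h | h <;> rw [h]
    · rw [hTm]
    · rw [hTL]
    · rw [hTR]
  · intro c i j hij
    simp only at hij
    have hi := hLR _ (hφM i)
    have hj := hLR _ (hφM j)
    have fin : (φ i : E) = φ j → i = j := fun h => φ.injective (Subtype.ext h)
    have case : (T i c = φ i ∨ T i c = L (φ i) ∨ T i c = R (φ i)) ∧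
        (T j c = φ j ∨ T j c = L (φ j) ∨ T j c = R (φ j)) := by
      constructor
      · rcases hc3 i c with h | h | h <;> rw [h]
        · exact Or.inl (hTm i)
        · exact Or.inr (Or.inl (hTL i))
        · exact Or.inr (Or.inr (hTR i))
      · rcases hc3 j c with h | h | h <;> rw [h]
        · exact Or.inl (hTm j)
        · exact Or.inr (Or.inl (hTL j))
        · exact Or.inr (Or.inr (hTR j))
    obtain ⟨c1, c2⟩ := case
    rw [← hij] at c2
    rcases c1 with c1 | c1 | c1 <;> rcases c2 with c2 | c2 | c2 <;> rw [c1] at c2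
    · exact fin c2
    · exact absurd (c2 ▸ hj.1) (hMP _ (hφM i))
    · exact absurd (c2 ▸ hj.2.1) (hMP _ (hφM i))
    · exact absurd (c2 ▸ hi.1) (hMP _ (hφM j))
    · exact fin (hLinj (hφM i) (hφM j) c2)
    · exact absurd c2 (hdisj _ (hφM i) _ (hφM j))
    · exact absurd (c2 ▸ hi.2.1) (hMP _ (hφM j))
    · exact absurd c2.symm (hdisj _ (hφM j) _ (hφM i))
    · exact fin (hRinj (hφM i) (hφM j) c2)
  · intro i
    have hi := hLR _ (hφM i)
    have hm := hMS _ (hφM i)
    have hl := hPS _ hi.1
    have hr := hPS _ hi.2.1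
    have hmr := hx (φ i : E)
    have hlr := hx (L (φ i))
    have hrr := hx (R (φ i))
    have e1 : wd N k (col (φ i : E)) (x (φ i : E)) = x (φ i : E) := by
      unfold wd; rw [if_pos hm.2]
    have e2 : wd N k (col (L (φ i))) (x (L (φ i))) = anti N (x (L (φ i))) := by
      unfold wd; rw [if_neg hl.2]
    have e3 : wd N k (col (R (φ i))) (x (R (φ i))) = anti N (x (R (φ i))) := by
      unfold wd; rw [if_neg hr.2]
    have a1 := hi.2.2.1
    have a2 := hi.2.2.2.1
    simp only [e1, e2, e3] at a1 a2
    have hl2 := hl.2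
    have hr2 := hr.2
    have hlrc := hi.2.2.2.2.2.2
    unfold isM at hl2 hr2
    have hG := goodH N k (x (φ i : E)) (x (L (φ i))) (x (R (φ i))) hk hmr hlr hrr a1 a2
      (by
        by_cases z1 : col (L (φ i)) = 0
        · have z2 : ¬ col (R (φ i)) = 0 := fun h => hlrc (z1.trans h.symm)
          simp only [z1, if_true] at hl2
          simp only [z2, if_false] at hr2
          right; omega
        · simp only [z1, if_false] at hl2
          by_cases z2 : col (R (φ i)) = 0
          · simp only [z2, if_true] at hr2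
            left; omega
          · simp only [z2, if_false] at hr2
            left; omega)
      (by
        constructor
        · by_cases z1 : col (L (φ i)) = 0
          · simp only [z1, if_true] at hl2
            unfold anti; split_ifs <;> omega
          · simp only [z1, if_false] at hl2
            omega
        · by_cases z1 : col (R (φ i)) = 0
          · simp only [z1, if_true] at hr2
            unfold anti; split_ifs <;> omega
          · simp only [z1, if_false] at hr2
            omega)
    obtain ⟨g1, g2, g3⟩ := hG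
    intro c
    rcases hc3 i c with h | h | h <;> rw [h]
    · exact ⟨col (R (φ i)), by simp only [hTm, hTR]; exact g1⟩
    · exact ⟨col (φ i : E), by simp only [hTm, hTL]; exact g2⟩
    · rcases g3 with g3 | g3
      · exact ⟨col (L (φ i)), by simp only [hTL, hTR]; exact g3⟩
      · exact ⟨col (φ i : E), by simp only [hTm, hTR]; exact g3⟩

theorem pm_all [DecidableEq E] (N : ℤ) (hN : 0 < N) (col : E → Fin 3) (S : Finset E) (r : ℕ)
    (x : E → ℤ) (hx : ∀ e, 0 ≤ x e ∧ x e < 2 * N) (hb : Bal col S r)
    (hH : Hall N col (fun e => some (x e)) S r) : PM N col x S r := by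
  induction r generalizing S x with
  | zero =>
    exact ⟨fun i => i.elim0, fun i => i.elim0, fun i => i.elim0, fun c i => i.elim0,
      fun i => i.elim0⟩
  | succ n ih =>
    by_cases hsl : Hall N col (fun e => some (x e)) S n
    · exact slack N hN col x S n hx hb hsl (fun x' hx' S' hb' hH' => ih S' x' hx' hb' hH')
    · unfold Hall at hsl
      push Not at hsl
      obtain ⟨c, l, s, ha, hs⟩ := hsl
      have hle := hH c l s ha
      have htight : sig N col (fun e => some (x e)) S c l s = ((n + 1 : ℕ) : ℤ) := by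
        push_cast at hle ⊢
        omega
      have : Nonempty E := by
        have : 0 < (S.filter (fun e => col e = 0)).card := by rw [hb 0]; omega
        obtain ⟨e, -⟩ := Finset.card_pos.1 this
        exact ⟨e⟩
      have ha' := ha
      unfold Arc at ha'
      -- rotate by `-l`
      obtain ⟨t, ht, htl⟩ : ∃ t, (0 ≤ t ∧ t < 2 * N) ∧ (t = - l ∨ t = 2 * N - l) := by
        by_cases h0 : l = 0
        · exact ⟨0, by omega, by omega⟩
        · exact ⟨2 * N - l, by omega, by omega⟩
      refine pm_rot N col x S (n + 1) hx t ht ?_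
      refine pm_perm N col _ S (n + 1) (Equiv.swap c 0) ?_
      have hx' : ∀ e, 0 ≤ rot N t (x e) ∧ rot N t (x e) < 2 * N :=
        fun e => rot_range N t (x e) ht (hx e)
      have hH' := hall_perm N col _ S (n + 1) (Equiv.swap c 0)
        (hall_rot N col x S (n + 1) hx t ht hH)
      have hb' := bal_perm col S (n + 1) (Equiv.swap c 0) hb
      refine tight_norm N (s - l) (by omega) _ _ S (n + 1) hx' hb' hH' ?_
      have h0 : (Equiv.swap c 0) c = 0 := Equiv.swap_apply_left c 0
      have := sig_perm N col (fun e => rot N t (x e)) S (Equiv.swap c 0) c 0 (s - l)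
      rw [h0] at this
      rw [this, ← htight]
      unfold sig
      refine Finset.sum_congr rfl fun e _ => ?_
      have hre := hx e
      have e1 : Mem N 0 (s - l) (rot N t (x e)) ↔ Mem N l s (x e) := by
        unfold Mem rot; split_ifs <;> omega
      have e2 : Mem N 0 (s - l) (anti N (rot N t (x e))) ↔ Mem N l s (anti N (x e)) := by
        unfold Mem anti rot; split_ifs <;> omega
      simp only [ctr, e1, e2]

end HP

/-- **Theorem H without jokers.** -/
theorem hall_pm {E : Type*} [DecidableEq E] (N : ℤ) (hN : 0 < N) (col : E → Fin 3) (x : E → ℤ)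
    (S : Finset E) (r : ℕ) (hx : ∀ e, 0 ≤ x e ∧ x e < 2 * N) (hb : Bal col S r)
    (hH : Hall N col (fun e => some (x e)) S r) :
    HasPM N col (fun e => some (x e)) S r := by
  obtain ⟨T, hT1, hT2, hT3, hT4⟩ := HP.pm_all N hN col S r x hx hb hH
  refine ⟨T, hT1, hT2, hT3, fun i => ?_⟩
  have hg := HP.good_of_goodF N hN (fun c => x (T i c)) (fun c => hx _) (hT4 i)
  exact Or.inr (Or.inr (Or.inr ⟨_, _, _, rfl, rfl, rfl, hg⟩))

end RD
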